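import Pool.Agent.Helper66_DE.Statements

/-!
# Assembly lemmas: local subrings of factorial domains, generators of the canonical module
-/

open CategoryTheory CategoryTheory.Limits AlgebraicGeometry

set_option linter.unusedSectionVars false
set_option linter.unusedVariables false

noncomputable section

namespace Pool.Agent.H66DE

section Loc

variable {R K : Type} [CommRing R] [IsDomain R] [Field K] [Algebra R K] [FaithfulSMul R K]

theorem algebraMap_mem_locSubring (p : Ideal R) [hp : p.IsPrime] (r : R) :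
    algebraMap R K r ∈ locSubring R K p :=
  ⟨r, 1, fun h => hp.ne_top ((Ideal.eq_top_iff_one _).2 h), by simp⟩

theorem algebraMap_ne_zero_of {s : R} (hs : s ≠ 0) : algebraMap R K s ≠ 0 := by
  intro h
  rw [FaithfulSMul.algebraMap_eq_zero_iff] at h
  exact hs h

theorem inv_mem_locSubring (p : Ideal R) [hp : p.IsPrime] {s : R} (hs : s ∉ p) :
    (algebraMap R K s)⁻¹ ∈ locSubring R K p := by
  have h0 : algebraMap R K s ≠ 0 :=
    algebraMap_ne_zero_of (fun h => hs (h ▸ p.zero_mem))
  exact ⟨1, s, hs, by rw [map_one, inv_mul_cancel₀ h0]⟩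

theorem mem_locSubring_iff {p : Ideal R} [hp : p.IsPrime] {z : K} :
    z ∈ locSubring R K p ↔ ∃ a s : R, s ∉ p ∧ z * algebraMap R K s = algebraMap R K a := Iff.rfl

theorem locSubring_mono {p q : Ideal R} [p.IsPrime] [q.IsPrime] (h : p ≤ q) :
    locSubring R K q ≤ locSubring R K p := by
  rintro z ⟨a, s, hs, hz⟩
  exact ⟨a, s, fun h' => hs (h h'), hz⟩

/-- prime elements below a nonzero prime of a factorial domain -/
theorem exists_prime_mem [UniqueFactorizationMonoid R] {q : Ideal R} (hq : q.IsPrime)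
    {b : R} (hb : b ∈ q) (hb0 : b ≠ 0) : ∃ π : R, Prime π ∧ π ∣ b ∧ π ∈ q := by
  obtain ⟨f, hf, u, hu⟩ := UniqueFactorizationMonoid.exists_prime_factors b hb0
  have hprod : f.prod ∈ q := by
    have : f.prod = b * ((u⁻¹ : Rˣ) : R) := by rw [← hu, mul_assoc, Units.mul_inv, mul_one]
    rw [this]
    exact q.mul_mem_right _ hb
  obtain ⟨π, hπ, hπq⟩ := (hq.multiset_prod_mem_iff_exists_mem f).1 hprod
  exact ⟨π, hf π hπ, (Multiset.dvd_prod hπ).trans ⟨u, hu.symm⟩, hπq⟩

theorem isPrime_span {π : R} (hπ : Prime π) : (Ideal.span {π}).IsPrime :=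
  (Ideal.span_singleton_prime hπ.ne_zero).2 hπ

theorem height_span_prime [IsNoetherianRing R] {π : R} (hπ : Prime π) :
    (Ideal.span {π}).height = 1 := by
  have : (Ideal.span {π}).IsPrime := isPrime_span hπ
  refine le_antisymm ?_ ?_
  · refine Ideal.height_le_one_of_isPrincipal_of_mem_minimalPrimes (Ideal.span {π})
      (Ideal.span {π}) ?_
    rw [Ideal.minimalPrimes_eq_subsingleton_self]
    exact Set.mem_singleton _
  · rw [Order.one_le_iff_ne_zero, Ne, Ideal.height_eq_zero_iff_eq_bot, Ideal.span_singleton_eq_bot]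
    exact hπ.ne_zero

/-- a height one prime of a factorial domain is principal -/
theorem exists_span_of_height_one [IsNoetherianRing R] [UniqueFactorizationMonoid R]
    {p : Ideal R} (hp : p.IsPrime) (h : p.height = 1) :
    ∃ π : R, Prime π ∧ p = Ideal.span {π} := by
  obtain ⟨b, hb, hb0⟩ := Submodule.exists_mem_ne_zero_of_ne_bot (Ideal.ne_bot_of_height_eq_one h)
  obtain ⟨π, hπ, -, hπp⟩ := exists_prime_mem hp hb hb0
  refine ⟨π, hπ, ?_⟩
  have := isPrime_span hπ
  have hle : Ideal.span {π} ≤ p := by rwa [Ideal.span_singleton_le_iff_mem]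
  exact (Ideal.eq_of_le_of_height_le _ hle (by rw [h, height_span_prime hπ])).symm

/-- two comparable primes of height one are equal -/
theorem eq_of_le_of_height_one [IsNoetherianRing R] {p q : Ideal R} (hp : p.IsPrime)
    (hq : q.IsPrime) (h : p ≤ q) (h1 : p.height = 1) (h2 : q.height = 1) : p = q :=
  Ideal.eq_of_le_of_height_le _ h (by rw [h1, h2])

/-- A factorial domain is the intersection of its localizations at height one primes,
locally at a prime `q`. -/
theorem mem_locSubring_of_forall [IsNoetherianRing R] [UniqueFactorizationMonoid R]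
    [IsFractionRing R K] {q : Ideal R} [hq : q.IsPrime] {u : K}
    (hu : ∀ (p : Ideal R) [p.IsPrime], p.height = 1 → p ≤ q → u ∈ locSubring R K p) :
    u ∈ locSubring R K q := by
  obtain ⟨a, b, hcop, hab⟩ := IsFractionRing.exists_reduced_fraction (A := R) u
  have hb0 : (b : R) ≠ 0 := nonZeroDivisors.ne_zero b.2
  have hbK : algebraMap R K b ≠ 0 := algebraMap_ne_zero_of hb0
  have hu' : u * algebraMap R K b = algebraMap R K a := by
    rw [← hab, IsFractionRing.mk'_eq_div, div_mul_cancel₀ _ hbK]
  by_cases hbq : (b : R) ∈ q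
  · exfalso
    obtain ⟨π, hπ, hπb, hπq⟩ := exists_prime_mem hq hbq hb0
    have := isPrime_span hπ
    obtain ⟨a', s', hs', h'⟩ := hu (Ideal.span {π}) (height_span_prime hπ)
      (by rwa [Ideal.span_singleton_le_iff_mem])
    have e : a * s' = a' * b := by
      apply FaithfulSMul.algebraMap_injective R K
      rw [map_mul, map_mul, ← hu', ← h']; ring
    have h1 : π ∣ a * s' := e ▸ (hπb.mul_left a')
    rcases hπ.dvd_or_dvd h1 with h2 | h2
    · exact hπ.not_isUnit (hcop h2 hπb)
    · exact hs' (Ideal.mem_span_singleton.2 h2)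
  · exact ⟨a, b, hbq, hu'⟩

end Loc

section Gen

variable {K : Type} [Field K] [Algebra ℂ K]

theorem span_units_smul {V : Type} [AddCommGroup V] [Module K V] (A : Subring K) {u : K}
    (hu : u ∈ A) (hu' : u⁻¹ ∈ A) (hu0 : u ≠ 0) (η : V) :
    Submodule.span A {u • η} = Submodule.span A {η} := by
  apply le_antisymm
  · rw [Submodule.span_singleton_le_iff_mem, Submodule.mem_span_singleton]
    exact ⟨⟨u, hu⟩, rfl⟩
  · rw [Submodule.span_singleton_le_iff_mem, Submodule.mem_span_singleton]
    refine ⟨⟨u⁻¹, hu'⟩, ?_⟩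
    change u⁻¹ • u • η = η
    rw [smul_smul, inv_mul_cancel₀ hu0, one_smul]

/-- monotonicity of the lattices of forms -/
theorem formLattice_mono {A B : Subring K} (h : A ≤ B) {η : ⋀[K]^3 (Ω[K⁄ℂ])}
    (hη : η ∈ formLattice K A) : η ∈ formLattice K B := by
  unfold formLattice at hη
  induction hη using Submodule.span_induction with
  | mem x hx =>
    obtain ⟨a, ha, rfl⟩ := hx
    exact Submodule.subset_span ⟨a, fun i => h (ha i), rfl⟩
  | zero => exact zero_mem _
  | add x y _ _ hx hy => exact add_mem hx hy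
  | smul a x _ hx => exact (formLattice K B).smul_mem ⟨a.1, h a.2⟩ hx

variable {R : Type} [CommRing R] [IsDomain R] [Algebra R K] [FaithfulSMul R K]

/-- two generators of the canonical module differ by a unit -/
theorem exists_unit_of_generates [IsNoetherianRing R] [UniqueFactorizationMonoid R]
    [IsFractionRing R K] {q : Ideal R} [hq : q.IsPrime] (hq0 : q ≠ ⊥)
    {η η' : ⋀[K]^3 (Ω[K⁄ℂ])} (h : GeneratesAt R K q η) (h' : GeneratesAt R K q η') :
    ∃ u : K, u ≠ 0 ∧ u ∈ locSubring R K q ∧ u⁻¹ ∈ locSubring R K q ∧ η' = u • η := by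
  have key : ∀ (p : Ideal R) [p.IsPrime], p.height = 1 → p ≤ q →
      (∃ u : K, u ∈ locSubring R K p ∧ η' = u • η) ∧
      (∃ v : K, v ∈ locSubring R K p ∧ η = v • η') := by
    intro p _ hp hpq
    have e : Submodule.span (locSubring R K p) {η} = Submodule.span (locSubring R K p) {η'} :=
      (h p hp hpq).symm.trans (h' p hp hpq)
    constructor
    · have : η' ∈ Submodule.span (locSubring R K p) {η} := e ▸ Submodule.mem_span_singleton_self _
      obtain ⟨u, hu⟩ := Submodule.mem_span_singleton.1 this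
      exact ⟨u.1, u.2, hu.symm⟩
    · have : η ∈ Submodule.span (locSubring R K p) {η'} :=
        e.symm ▸ Submodule.mem_span_singleton_self _
      obtain ⟨u, hu⟩ := Submodule.mem_span_singleton.1 this
      exact ⟨u.1, u.2, hu.symm⟩
  -- there is a height one prime below `q`
  obtain ⟨b, hb, hb0⟩ := Submodule.exists_mem_ne_zero_of_ne_bot hq0
  obtain ⟨π, hπ, -, hπq⟩ := exists_prime_mem hq hb hb0
  have hp0 := isPrime_span hπ
  have hle : Ideal.span {π} ≤ q := by rwa [Ideal.span_singleton_le_iff_mem]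
  obtain ⟨⟨u, _, hu⟩, ⟨v, _, hv⟩⟩ := key (Ideal.span {π}) (height_span_prime hπ) hle
  by_cases hη : η = 0
  · refine ⟨1, one_ne_zero, one_mem _, by rw [inv_one]; exact one_mem _, ?_⟩
    rw [hu, hη, smul_zero, smul_zero]
  have huv : v * u = 1 := by
    have e1 : (v * u) • η = (1 : K) • η := by rw [mul_smul, ← hu, ← hv, one_smul]
    exact smul_left_injective K hη e1
  have hu0 : u ≠ 0 := by rintro rfl; simp at huv
  have hη' : η' ≠ 0 := by
    rw [hu]; exact smul_ne_zero hu0 hη
  have hvu : v = u⁻¹ := eq_inv_of_mul_eq_one_left huv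
  refine ⟨u, hu0, ?_, ?_, hu⟩
  · apply mem_locSubring_of_forall
    intro p _ hp hpq
    obtain ⟨⟨w, hw, hw'⟩, -⟩ := key p hp hpq
    have : w = u := smul_left_injective K hη (show w • η = u • η by rw [← hw', ← hu])
    exact this ▸ hw
  · apply mem_locSubring_of_forall
    intro p _ hp hpq
    obtain ⟨-, ⟨w, hw, hw'⟩⟩ := key p hp hpq
    have : w = u⁻¹ := smul_left_injective K hη' (show w • η' = u⁻¹ • η' by rw [← hw', ← hvu, ← hv])
    exact this ▸ hw

end Gen

end Pool.Agent.H66DE
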