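import Pool.Agent.Helper66_DE.Asm1

/-!
# Assembly: points of the blow-up in terms of the chart rings
-/

open CategoryTheory CategoryTheory.Limits AlgebraicGeometry

set_option linter.unusedSectionVars false
set_option linter.unusedVariables false

noncomputable section

namespace Pool.Agent.H66DE

/-- the `R`-algebra structure of the function field -/
@[reducible] def algR {R : Type} [CommRing R] {Y : Scheme.{0}} [IsIntegral Y]
    (f : Y ⟶ Spec (CommRingCat.of R)) : Algebra R Y.functionField := (toFF f).toAlgebra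

/-- the `ℂ`-algebra structure of the function field -/
@[reducible] def algC {R : Type} [CommRing R] [Algebra ℂ R] {Y : Scheme.{0}} [IsIntegral Y]
    (f : Y ⟶ Spec (CommRingCat.of R)) : Algebra ℂ Y.functionField :=
  ((toFF f).comp (algebraMap ℂ R)).toAlgebra

/-- The points near `y` in terms of a chart ring. -/
def PointData (K : Type) [Field K] [Algebra R0 K] {Y : Scheme.{0}} [IsIntegral Y]
    (f : Y ⟶ Spec (CommRingCat.of R0)) (st : Y → Subring K) (y : Y) : Prop :=
  ∃ (i : Option (Fin 3)) (P : {ζ : Y // ζ ⤳ y} → PrimeSpectrum (chart K i)),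
    (∀ ζ, st ζ.1 = locSubring (chart K i) K (P ζ).asIdeal) ∧
    (∀ ζ, Order.coheight ζ.1 = (P ζ).asIdeal.height) ∧
    (∀ ζ ξ, (P ζ).asIdeal ≤ (P ξ).asIdeal ↔ ζ.1 ⤳ ξ.1) ∧
    (∀ p : Ideal (chart K i), p.IsPrime → p ≤ (P ⟨y, specializes_rfl⟩).asIdeal →
      ∃ ζ, (P ζ).asIdeal = p) ∧
    (∀ r : R0, r ∈ (f y).asIdeal ↔
      toChart R0 K IR (sR i) (Ideal.subset_span ⟨i, rfl⟩) r ∈ (P ⟨y, specializes_rfl⟩).asIdeal)

section

variable {R : Type} [CommRing R] [IsDomain R] (I : Ideal R) (s : R) (hs : s ∈ I) (hs0 : s ≠ 0)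
  {K : Type} [Field K] [Algebra R K] (τ : chartRing R (FractionRing R) I s hs →+* K)
  (hτ : Function.Injective τ)
  (hτR : algebraMap R K = τ.comp (toChart R (FractionRing R) I s hs))

include hs0 hτ hτR

theorem algMap_inj : Function.Injective (algebraMap R K) := by
  rw [hτR]
  refine hτ.comp ?_
  intro a b h
  have := congrArg Subtype.val h
  exact IsFractionRing.injective R (FractionRing R) this

/-- the image of `τ` is the chart ring in `K` -/
theorem mem_chartRing_iff (z : K) : z ∈ chartRing R K I s hs ↔ ∃ a, τ a = z := by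
  have hinj := algMap_inj I s hs hs0 τ hτ hτR
  have hsK : algebraMap R K s ≠ 0 := fun h => hs0 (hinj (by rw [h, map_zero]))
  have hsF : algebraMap R (FractionRing R) s ≠ 0 := fun h =>
    hs0 (IsFractionRing.injective R (FractionRing R) (by rw [h, map_zero]))
  have hR : ∀ r, τ (toChart R (FractionRing R) I s hs r) = algebraMap R K r := fun r => by
    rw [hτR]; rfl
  constructor
  · rintro ⟨n, r, hr, h⟩
    have hmem : algebraMap R (FractionRing R) r / algebraMap R (FractionRing R) s ^ n ∈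
        chartRing R (FractionRing R) I s hs :=
      ⟨n, r, hr, div_mul_cancel₀ _ (pow_ne_zero n hsF)⟩
    refine ⟨⟨_, hmem⟩, ?_⟩
    have e : (⟨_, hmem⟩ : chartRing R (FractionRing R) I s hs) *
        (toChart R (FractionRing R) I s hs s) ^ n = toChart R (FractionRing R) I s hs r := by
      apply Subtype.ext
      exact div_mul_cancel₀ _ (pow_ne_zero n hsF)
    have e2 := congrArg τ e
    rw [map_mul, map_pow, hR, hR, ← h] at e2
    exact mul_right_cancel₀ (pow_ne_zero n hsK) e2
  · rintro ⟨⟨a, n, r, hr, h⟩, rfl⟩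
    refine ⟨n, r, hr, ?_⟩
    have e : (⟨a, n, r, hr, h⟩ : chartRing R (FractionRing R) I s hs) *
        (toChart R (FractionRing R) I s hs s) ^ n = toChart R (FractionRing R) I s hs r := by
      apply Subtype.ext
      exact h
    have e2 := congrArg τ e
    rw [map_mul, map_pow, hR, hR] at e2
    exact e2

/-- the isomorphism of the chart ring in the fraction field with that in `K` -/
def chartIso : chartRing R (FractionRing R) I s hs ≃+* chartRing R K I s hs :=
  RingEquiv.ofBijective (τ.codRestrict (chartRing R K I s hs)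
      (fun a => (mem_chartRing_iff I s hs hs0 τ hτ hτR _).2 ⟨a, rfl⟩))
    ⟨fun a b h => hτ (congrArg Subtype.val h), fun z => by
      obtain ⟨a, ha⟩ := (mem_chartRing_iff I s hs hs0 τ hτ hτR z.1).1 z.2
      exact ⟨a, Subtype.ext ha⟩⟩

theorem chartIso_coe (a) : ((chartIso I s hs hs0 τ hτ hτR a : chartRing R K I s hs) : K) = τ a :=
  rfl

theorem isFractionRing_of (hfrac : ∀ z : K, ∃ a b, b ≠ 0 ∧ z * τ b = τ a) :
    IsFractionRing R K := by
  have hinj := algMap_inj I s hs hs0 τ hτ hτR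
  have hsK : algebraMap R K s ≠ 0 := fun h => hs0 (hinj (by rw [h, map_zero]))
  have : FaithfulSMul R K := (faithfulSMul_iff_algebraMap_injective R K).2 hinj
  refine IsFractionRing.of_field R K ?_
  intro z
  obtain ⟨a, b, hb, h⟩ := hfrac z
  obtain ⟨n, r, _, hr⟩ := (mem_chartRing_iff I s hs hs0 τ hτ hτR _).2 ⟨a, rfl⟩
  obtain ⟨m, r', _, hr'⟩ := (mem_chartRing_iff I s hs hs0 τ hτ hτR _).2 ⟨b, rfl⟩
  have hb' : τ b ≠ 0 := fun h' => hb (hτ (by rw [h', map_zero]))
  have hr0 : algebraMap R K r' ≠ 0 := by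
    rw [← hr']; exact mul_ne_zero hb' (pow_ne_zero m hsK)
  refine ⟨r * s ^ m, r' * s ^ n, ?_⟩
  rw [map_mul, map_mul, map_pow, map_pow, ← hr, ← hr', ← h]
  field_simp

end

/-- transport of the local subrings along `chartIso` -/
theorem locSubring_chartIso {R : Type} [CommRing R] [IsDomain R] (I : Ideal R) (s : R)
    (hs : s ∈ I) (hs0 : s ≠ 0)
    {K : Type} [Field K] [Algebra R K] (τ : chartRing R (FractionRing R) I s hs →+* K)
    (hτ : Function.Injective τ)
    (hτR : algebraMap R K = τ.comp (toChart R (FractionRing R) I s hs))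
    (p : Ideal (chartRing R (FractionRing R) I s hs)) [hp : p.IsPrime]
    (q : Ideal (chartRing R K I s hs)) [hq : q.IsPrime]
    (hpq : ∀ a, chartIso I s hs hs0 τ hτ hτR a ∈ q ↔ a ∈ p) (z : K) :
    z ∈ locSubring (chartRing R K I s hs) K q ↔ ∃ a t, t ∉ p ∧ z * τ t = τ a := by
  constructor
  · rintro ⟨a, t, ht, h⟩
    obtain ⟨a', rfl⟩ := (chartIso I s hs hs0 τ hτ hτR).surjective a
    obtain ⟨t', rfl⟩ := (chartIso I s hs hs0 τ hτ hτR).surjective t
    exact ⟨a', t', fun h' => ht ((hpq t').2 h'), h⟩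
  · rintro ⟨a, t, ht, h⟩
    exact ⟨chartIso I s hs hs0 τ hτ hτR a, chartIso I s hs hs0 τ hτ hτR t,
      fun h' => ht ((hpq t).1 h'), h⟩


theorem points [IsDomain R0] [IsNoetherianRing R0] (hsR : ∀ i, sR i ≠ 0)
    (hB : BlowupStatement) (hS : StalkStatement) (hT : TopStatement) :
    ∃ (Y : Scheme.{0}) (_ : IsIntegral Y) (_ : IsLocallyNoetherian Y) (_ : Y.IsSeparated)
      (f : Y ⟶ Spec (CommRingCat.of R0)), IsProjectiveMor f ∧ IsBirationalMor f ∧
      (@IsFractionRing R0 _ Y.functionField _ (algR f)) ∧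
      (∀ y, @PointData Y.functionField _ (algR f) Y _ f (stalkSubring Y) y) ∧
      (∃ j : ∀ i, Spec (CommRingCat.of (chart (FractionRing R0) i)) ⟶ Y,
        (∀ i, IsOpenImmersion (j i)) ∧ ∀ y, ∃ i, y ∈ Set.range (j i)) := by
  obtain ⟨Y, hI, hN, hSep, f, hproj, hbir, j, hj, hjf, hcov⟩ :=
    hB R0 (Option (Fin 3)) sR hsR
  refine ⟨Y, hI, hN, hSep, f, hproj, hbir, ?_⟩
  letI : Algebra R0 Y.functionField := algR f
  have hst := fun i => hS (chart (FractionRing R0) i) Y (j i)
  choose τ hτ hfrac hstalk hR using hst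
  have hτR : ∀ i, algebraMap R0 Y.functionField = (τ i).comp
      (toChart R0 (FractionRing R0) IR (sR i) (Ideal.subset_span ⟨i, rfl⟩)) :=
    fun i => hR i R0 f _ (hjf i)
  refine ⟨?_, ?_, j, hj, hcov⟩
  · exact isFractionRing_of IR (sR none) (Ideal.subset_span ⟨none, rfl⟩) (hsR none) (τ none)
      (hτ none) (hτR none) (hfrac none)
  · intro y
    obtain ⟨i, p, rfl⟩ := hcov y
    obtain ⟨hTh, hTs, hTr⟩ := hT (chart (FractionRing R0) i) Y (j i)
    let e := chartIso IR (sR i) (Ideal.subset_span ⟨i, rfl⟩) (hsR i) (τ i) (hτ i) (hτR i)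
    have hinjj : Function.Injective (j i) := (j i).isOpenEmbedding.injective
    choose q hq using fun ζ : {ζ : Y // ζ ⤳ (j i) p} => hTr p ζ.1 ζ.2
    let P : {ζ : Y // ζ ⤳ (j i) p} → PrimeSpectrum (chart Y.functionField i) := fun ζ =>
      ⟨(q ζ).asIdeal.comap e.symm.toRingHom, (q ζ).2.comap _⟩
    have hP : ∀ ζ a, e a ∈ (P ζ).asIdeal ↔ a ∈ (q ζ).asIdeal := by
      intro ζ a
      change e.symm (e a) ∈ (q ζ).asIdeal ↔ _
      rw [e.symm_apply_apply]
    have hP' : ∀ ζ a, a ∈ (P ζ).asIdeal ↔ e.symm a ∈ (q ζ).asIdeal := fun ζ a => Iff.rfl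
    refine ⟨i, P, ?_, ?_, ?_, ?_, ?_⟩
    · intro ζ
      ext z
      have := (q ζ).2
      rw [locSubring_chartIso IR (sR i) (Ideal.subset_span ⟨i, rfl⟩) (hsR i) (τ i) (hτ i)
        (hτR i) (q ζ).asIdeal (P ζ).asIdeal (hP ζ) z, ← hstalk i (q ζ) z, hq]
    · intro ζ
      rw [← hq ζ, hTh]
      exact (RingEquiv.height_comap e.symm (q ζ).asIdeal).symm
    · intro ζ ξ
      rw [← hq ζ, ← hq ξ, hTs]
      constructor
      · intro h a ha
        rw [← hP] at ha ⊢
        exact h ha
      · intro h a ha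
        rw [hP'] at ha ⊢
        exact h ha
    · intro p' hp' hle
      let q' : Spec (CommRingCat.of (chart (FractionRing R0) i)) :=
        ⟨p'.comap e.toRingHom, hp'.comap _⟩
      have hq'q : q'.asIdeal ≤ p.asIdeal := by
        intro a ha
        have h1 : e a ∈ (P ⟨(j i) p, specializes_rfl⟩).asIdeal := hle ha
        rw [hP] at h1
        have h2 : q ⟨(j i) p, specializes_rfl⟩ = p := hinjj (hq ⟨(j i) p, specializes_rfl⟩)
        rwa [h2] at h1
      refine ⟨⟨(j i) q', (hTs q' p).2 hq'q⟩, ?_⟩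
      have h2 : q ⟨(j i) q', (hTs q' p).2 hq'q⟩ = q' :=
        hinjj (hq ⟨(j i) q', (hTs q' p).2 hq'q⟩)
      ext a
      rw [hP', h2]
      change e (e.symm a) ∈ p' ↔ _
      rw [e.apply_symm_apply]
    · intro r
      have h2 : q ⟨(j i) p, specializes_rfl⟩ = p := hinjj (hq ⟨(j i) p, specializes_rfl⟩)
      have h3 : toChart R0 Y.functionField IR (sR i) (Ideal.subset_span ⟨i, rfl⟩) r =
          e (toChart R0 (FractionRing R0) IR (sR i) (Ideal.subset_span ⟨i, rfl⟩) r) := by
        apply Subtype.ext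
        change algebraMap R0 Y.functionField r = τ i _
        rw [hτR i]; rfl
      rw [h3, hP, h2]
      have h4 : f ((j i) p) = (j i ≫ f) p := rfl
      rw [h4, hjf i]
      rfl

end Pool.Agent.H66DE
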