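import Pool.Agent.Helper66_DE.Asm2

/-!
# Assembly: canonical, crepant, terminal, factorial
-/

open CategoryTheory CategoryTheory.Limits AlgebraicGeometry

set_option linter.unusedSectionVars false
set_option linter.unusedVariables false

noncomputable section

namespace Pool.Agent.H66DE

section Canon

/-- In a discrete valuation ring containing `R0`, the centre is not zero. -/
theorem center_ne_bot {R K : Type} [CommRing R] [IsDomain R] [Field K] [Algebra R K]
    [IsFractionRing R K] (V : ValuationSubring K) (hV : IsDiscreteValuationRing V)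
    (hR : ∀ r : R, algebraMap R K r ∈ V) (q : Ideal R)
    (hq : ∀ r : R, r ∈ q ↔ V.valuation (algebraMap R K r) < 1) : q ≠ ⊥ := by
  rintro rfl
  have hall : ∀ z : K, z ∈ V := by
    intro z
    obtain ⟨a, b, hb, rfl⟩ := IsFractionRing.div_surjective (A := R) z
    have hb0 : b ≠ 0 := nonZeroDivisors.ne_zero hb
    have h1 : ¬ V.valuation (algebraMap R K b) < 1 := fun h => hb0 ((hq b).2 h)
    have h2 : V.valuation (algebraMap R K b) = 1 :=
      le_antisymm ((V.valuation_le_one_iff _).2 (hR b)) (not_lt.1 h1)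
    rw [← V.valuation_le_one_iff, map_div₀, h2, div_one]
    exact (V.valuation_le_one_iff _).2 (hR a)
  have hnf := IsDiscreteValuationRing.not_isField V
  apply hnf
  refine ⟨⟨0, 1, zero_ne_one⟩, mul_comm, fun {a} ha => ?_⟩
  have ha' : (a : K) ≠ 0 := fun h => ha (Subtype.ext h)
  exact ⟨⟨(a : K)⁻¹, hall _⟩, Subtype.ext (mul_inv_cancel₀ ha')⟩

theorem isPrime_center {A K : Type} [CommRing A] [Field K] [Algebra A K]
    (V : ValuationSubring K) (hA : ∀ r : A, algebraMap A K r ∈ V) :
    ∃ q : Ideal A, q.IsPrime ∧ ∀ r : A, r ∈ q ↔ V.valuation (algebraMap A K r) < 1 := by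
  refine ⟨(IsLocalRing.maximalIdeal V).comap ((algebraMap A K).codRestrict V.toSubring hA),
    Ideal.IsPrime.comap _, fun r => ?_⟩
  rw [Ideal.mem_comap, ValuationSubring.valuation_lt_one_iff]
  rfl

/-- local subring at the centre is contained in the valuation ring -/
theorem locSubring_le {A K : Type} [CommRing A] [IsDomain A] [Field K] [Algebra A K]
    [FaithfulSMul A K] (V : ValuationSubring K) (hA : ∀ r : A, algebraMap A K r ∈ V) (q : Ideal A)
    [hqp : q.IsPrime] (hq : ∀ r : A, r ∈ q ↔ V.valuation (algebraMap A K r) < 1) :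
    locSubring A K q ≤ V.toSubring := by
  rintro z ⟨a, s, hs, h⟩
  have h1 : ¬ V.valuation (algebraMap A K s) < 1 := fun h' => hs ((hq s).2 h')
  have h2 : V.valuation (algebraMap A K s) = 1 :=
    le_antisymm ((V.valuation_le_one_iff _).2 (hA s)) (not_lt.1 h1)
  have h3 := congrArg V.valuation h
  rw [map_mul, h2, mul_one] at h3
  change z ∈ V
  rw [← V.valuation_le_one_iff, h3]
  exact (V.valuation_le_one_iff _).2 (hA a)

instance faithful_chart (K : Type) [Field K] [Algebra R0 K] (i : Option (Fin 3)) :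
    FaithfulSMul (chart K i) K :=
  (faithfulSMul_iff_algebraMap_injective _ _).2 Subtype.val_injective

theorem integrallyClosed_locSubring {A K : Type} [CommRing A] [IsDomain A] [Field K]
    [Algebra A K] [FaithfulSMul A K] [UniqueFactorizationMonoid A] (p : Ideal A)
    [hp : p.IsPrime] : IsIntegrallyClosed (locSubring A K p) := by
  letI : Algebra A (locSubring A K p) :=
    ((algebraMap A K).codRestrict (locSubring A K p)
      (fun a => algebraMap_mem_locSubring p a)).toAlgebra
  have hcoe : ∀ a : A, ((algebraMap A (locSubring A K p) a : locSubring A K p) : K) =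
    algebraMap A K a := fun a => rfl
  have hloc : IsLocalization p.primeCompl (locSubring A K p) := by
    refine ⟨?_, ?_, ?_⟩
    · rintro ⟨s, hs⟩
      have hs0 : algebraMap A K s ≠ 0 :=
        algebraMap_ne_zero_of (fun h => hs (h ▸ p.zero_mem))
      exact ⟨⟨algebraMap A (locSubring A K p) s, ⟨_, inv_mem_locSubring p hs⟩,
        Subtype.ext (mul_inv_cancel₀ hs0), Subtype.ext (inv_mul_cancel₀ hs0)⟩, rfl⟩
    · rintro ⟨z, a, s, hs, h⟩
      exact ⟨(a, ⟨s, hs⟩), Subtype.ext h⟩
    · intro a b h
      have h' := congrArg Subtype.val h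
      rw [hcoe, hcoe] at h'
      exact ⟨1, by rw [FaithfulSMul.algebraMap_injective A K h']⟩
  refine isIntegrallyClosed_of_isLocalization (R := A) p.primeCompl ?_ (S := locSubring A K p)
  exact p.primeCompl_le_nonZeroDivisors

theorem isFractionRing_chart (K : Type) [Field K] [Algebra R0 K] [IsFractionRing R0 K]
    (i : Option (Fin 3)) : IsFractionRing (chart K i) K := by
  refine IsFractionRing.of_field _ K ?_
  intro z
  obtain ⟨a, b, hb, rfl⟩ := IsFractionRing.div_surjective (A := R0) z
  exact ⟨toChart R0 K IR (sR i) (Ideal.subset_span ⟨i, rfl⟩) a,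
    toChart R0 K IR (sR i) (Ideal.subset_span ⟨i, rfl⟩) b, rfl⟩

theorem gen_congr {K : Type} [Field K] [Algebra ℂ K] {A B : Subring K} (h : A = B)
    {η : ⋀[K]^3 (Ω[K⁄ℂ])} (e : formLattice K A = Submodule.span A {η}) :
    formLattice K B = Submodule.span B {η} := by
  subst h; exact e

theorem canonical [IsDomain R0] [UniqueFactorizationMonoid R0] [IsNoetherianRing R0]
    (h1 : LatChartStatement) (h2 : LatRStatement) (h3 : DomStatement) : IsCanonical R0 := by
  have hgen : ∀ q : Ideal R0, GeneratesAt R0 (FractionRing R0) q (eta0 (FractionRing R0)) := by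
    intro q p _ hp _
    exact h2 (FractionRing R0) p hp
  refine ⟨fun q _ => ⟨_, hgen q⟩, ?_⟩
  intro V hV hR q hq η hη
  have hqp : q.IsPrime := by
    obtain ⟨q', hq', h⟩ := isPrime_center V hR
    have : q = q' := by ext r; rw [hq, h]
    rwa [this]
  obtain ⟨i, hi⟩ := h3 (FractionRing R0) V hR
  obtain ⟨p, hp, hpV⟩ := isPrime_center (A := chart (FractionRing R0) i) V (fun r => hi r.2)
  have hmem : eta0 (FractionRing R0) ∈ formLattice (FractionRing R0) V.toSubring := by
    refine formLattice_mono (locSubring_le V (fun r => hi r.2) p hpV) ?_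
    rw [h1 (FractionRing R0) i p]
    exact Submodule.mem_span_singleton_self _
  obtain ⟨u, hu0, hu, -, rfl⟩ := exists_unit_of_generates
    (center_ne_bot V hV.dvr hR q hq) (hgen q) hη
  exact (formLattice (FractionRing R0) V.toSubring).smul_mem
    ⟨u, locSubring_le V hR q hq hu⟩ hmem

end Canon

section Pts

variable {Y : Scheme.{0}} [IsIntegral Y] (f : Y ⟶ Spec (CommRingCat.of R0))

theorem crepant [IsDomain R0] [UniqueFactorizationMonoid R0] [IsNoetherianRing R0]
    (hfr : @IsFractionRing R0 _ Y.functionField _ (algR f))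
    (hpt : ∀ y, @PointData Y.functionField _ (algR f) Y _ f (stalkSubring Y) y)
    (h1 : LatChartStatement) (h2 : LatRStatement) (hsR : ∀ i, sR i ≠ 0) : IsCrepant f := by
  letI : Algebra R0 Y.functionField := algR f
  letI : Algebra ℂ Y.functionField := algC f
  have : IsScalarTower ℂ R0 Y.functionField := IsScalarTower.of_algebraMap_eq' rfl
  have : FaithfulSMul R0 Y.functionField :=
    (faithfulSMul_iff_algebraMap_injective _ _).2 (IsFractionRing.injective R0 _)
  refine ⟨this, ?_⟩
  intro y η hη ξ hξ hξy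
  obtain ⟨i, P, hst, hht, hle, hsurj, hfy⟩ := hpt y
  have hPξ : ((P ⟨ξ, hξy⟩).asIdeal).height = 1 := by rw [← hht]; exact hξ
  have hgen : GeneratesAt R0 Y.functionField (f y).asIdeal (eta0 Y.functionField) := by
    intro p _ hp _
    exact h2 Y.functionField p hp
  -- the image of `y` is not the generic point
  have hq0 : (f y).asIdeal ≠ ⊥ := by
    intro h
    have hle' : (P ⟨ξ, hξy⟩).asIdeal ≤ (P ⟨y, specializes_rfl⟩).asIdeal :=
      (hle ⟨ξ, hξy⟩ ⟨y, specializes_rfl⟩).2 hξy
    obtain ⟨b, hb, hb0⟩ := Submodule.exists_mem_ne_zero_of_ne_bot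
      (Ideal.ne_bot_of_height_eq_one hPξ)
    obtain ⟨n, r, hr, hbr⟩ := b.2
    have hmem : toChart R0 Y.functionField IR (sR i) (Ideal.subset_span ⟨i, rfl⟩) r ∈
        (P ⟨y, specializes_rfl⟩).asIdeal := by
      have e : b * (toChart R0 Y.functionField IR (sR i) (Ideal.subset_span ⟨i, rfl⟩) (sR i)) ^ n =
          toChart R0 Y.functionField IR (sR i) (Ideal.subset_span ⟨i, rfl⟩) r :=
        Subtype.ext hbr
      rw [← e]
      exact Ideal.mul_mem_right _ _ (hle' hb)
    have hr0 : r = 0 := by
      have := (hfy r).2 hmem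
      rwa [h, Ideal.mem_bot] at this
    have hs0 : algebraMap R0 Y.functionField (sR i) ≠ 0 := by
      intro h0
      exact hsR i (IsFractionRing.injective R0 Y.functionField (by rw [h0, map_zero]))
    rw [hr0, map_zero] at hbr
    rcases mul_eq_zero.1 hbr with h' | h'
    · exact hb0 (Subtype.ext h')
    · exact hs0 (eq_zero_of_pow_eq_zero h')
  have hqp : ((f y).asIdeal).IsPrime := (f y).2
  obtain ⟨u, hu0, hu, hu', rfl⟩ := exists_unit_of_generates hq0 hgen hη
  -- units of the local ring downstairs are units upstairs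
  have hloc : ∀ z ∈ locSubring R0 Y.functionField (f y).asIdeal,
      z ∈ stalkSubring Y ξ := by
    rintro z ⟨a, s, hs, h⟩
    rw [hst ⟨ξ, hξy⟩]
    refine ⟨toChart R0 Y.functionField IR (sR i) (Ideal.subset_span ⟨i, rfl⟩) a,
      toChart R0 Y.functionField IR (sR i) (Ideal.subset_span ⟨i, rfl⟩) s, ?_, h⟩
    intro h'
    exact hs ((hfy s).2 ((hle ⟨ξ, hξy⟩ ⟨y, specializes_rfl⟩).2 hξy h'))
  have e1 := span_units_smul (stalkSubring Y ξ) (hloc u hu) (hloc _ hu') hu0
    (eta0 Y.functionField)
  have e2 : formLattice Y.functionField (stalkSubring Y ξ) =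
      Submodule.span (stalkSubring Y ξ) {eta0 Y.functionField} := by
    have := h1 Y.functionField i (P ⟨ξ, hξy⟩).asIdeal
    rw [hst ⟨ξ, hξy⟩]
    exact this
  exact e2.trans e1.symm


theorem terminal [IsDomain R0]
    (hfr : @IsFractionRing R0 _ Y.functionField _ (algR f))
    (hpt : ∀ y, @PointData Y.functionField _ (algR f) Y _ f (stalkSubring Y) y)
    (h1 : LatChartStatement) (h2 : TermStatement) (h3 : ChartUFDStatement) : IsTerminal f := by
  letI : Algebra R0 Y.functionField := algR f
  letI : Algebra ℂ Y.functionField := algC f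
  have : IsScalarTower ℂ R0 Y.functionField := IsScalarTower.of_algebraMap_eq' rfl
  have hgen : ∀ y : Y, GeneratesAtPoint Y y (eta0 Y.functionField) := by
    intro y ξ hξ hξy
    obtain ⟨i, P, hst, -⟩ := hpt y
    exact gen_congr (hst ⟨ξ, hξy⟩).symm (h1 Y.functionField i (P ⟨ξ, hξy⟩).asIdeal)
  refine ⟨fun y => ⟨_, hgen y⟩, ?_⟩
  intro y hy η hη V hV hle hdom
  obtain ⟨i, P, hst, hht, hPle, hsurj, -⟩ := hpt y
  obtain ⟨hN, hU⟩ := h3 Y.functionField i
  have hPy : 2 ≤ ((P ⟨y, specializes_rfl⟩).asIdeal).height := by rw [← hht]; exact hy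
  have hsty := hst ⟨y, specializes_rfl⟩
  -- generation at the prime of the chart
  have hgen' : ∀ η' : ⋀[Y.functionField]^3 (Ω[Y.functionField⁄ℂ]), GeneratesAtPoint Y y η' →
      GeneratesAt (chart Y.functionField i) Y.functionField (P ⟨y, specializes_rfl⟩).asIdeal
        η' := by
    intro η' hη' p hp hp1 hple
    obtain ⟨ζ, hζ⟩ := hsurj p hp hple
    have hζ1 : Order.coheight ζ.1 = 1 := by rw [hht, hζ]; exact hp1
    have e := hη' ζ.1 hζ1 ζ.2
    have e2 : stalkSubring Y ζ.1 = locSubring (chart Y.functionField i) Y.functionField p := by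
      rw [hst ζ]
      congr 1
    exact gen_congr e2 e
  have hq0 : (P ⟨y, specializes_rfl⟩).asIdeal ≠ ⊥ := by
    intro h
    rw [h, Ideal.height_bot] at hPy
    exact absurd hPy (by norm_num)
  have hfrc := isFractionRing_chart Y.functionField i
  obtain ⟨u, hu0, hu, hu', rfl⟩ := exists_unit_of_generates hq0
    (hgen' _ (hgen y)) (hgen' _ hη)
  obtain ⟨π, hπ, w, hw, he⟩ := h2 Y.functionField i (P ⟨y, specializes_rfl⟩).asIdeal hPy V
    hV.dvr hV.const (by rw [← hsty]; exact hle) (by rw [← hsty]; exact hdom)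
  refine ⟨π, hπ, u • w, ?_, ?_⟩
  · refine (formLattice Y.functionField V.toSubring).smul_mem ⟨u, ?_⟩ hw
    exact hle (by rw [hsty]; exact hu)
  · rw [he, smul_comm]

theorem qfactorial [IsLocallyNoetherian Y] [IsDomain R0]
    (hfr : @IsFractionRing R0 _ Y.functionField _ (algR f))
    (hpt : ∀ y, @PointData Y.functionField _ (algR f) Y _ f (stalkSubring Y) y)
    (h3 : ChartUFDStatement) (h4 : OrdStatement) : IsQFactorial Y := by
  letI : Algebra R0 Y.functionField := algR f
  letI : Algebra ℂ Y.functionField := algC f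
  have : IsScalarTower ℂ R0 Y.functionField := IsScalarTower.of_algebraMap_eq' rfl
  intro ξ hξ
  refine ⟨1, le_rfl, ?_⟩
  intro y
  by_cases hξy : ξ ⤳ y
  · obtain ⟨i, P, hst, hht, hPle, hsurj, -⟩ := hpt y
    obtain ⟨hN, hU⟩ := h3 Y.functionField i
    have hPξ : ((P ⟨ξ, hξy⟩).asIdeal).height = 1 := by rw [← hht]; exact hξ
    obtain ⟨π, hπ, hPπ⟩ := exists_span_of_height_one (P ⟨ξ, hξy⟩).2 hPξ
    have hπ0 : (π : Y.functionField) ≠ 0 := fun h => hπ.ne_zero (Subtype.ext h)
    refine ⟨π, hπ0, ?_⟩
    intro ζ hζ hζy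
    have hPζ : ((P ⟨ζ, hζy⟩).asIdeal).height = 1 := by rw [← hht]; exact hζ
    have hmem : (π : Y.functionField) ∈ stalkSubring Y ζ := by
      rw [hst ⟨ζ, hζy⟩]
      exact algebraMap_mem_locSubring (K := Y.functionField) (P ⟨ζ, hζy⟩).asIdeal π
    constructor
    · rintro rfl
      have hinv : (π : Y.functionField)⁻¹ ∉ stalkSubring Y ζ := by
        rw [hst ⟨ζ, hζy⟩]
        rintro ⟨a, s, hs, h⟩
        apply hs
        have e : s = π * a := by
          apply Subtype.ext
          change (s : Y.functionField) = (π : Y.functionField) * a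
          have h' : (π : Y.functionField)⁻¹ * (s : Y.functionField) = a := h
          rw [← h', mul_inv_cancel_left₀ hπ0]
        rw [e, hPπ]
        exact Ideal.mul_mem_right _ _ (Ideal.mem_span_singleton_self π)
      refine (h4 Y ζ hζ π hπ0).2 hmem hinv ?_
      intro a ha
      rw [hst ⟨ζ, hζy⟩] at ha ⊢
      obtain ⟨b, s, hs, h⟩ := ha
      have h' : a * (s : Y.functionField) = b := h
      have hs0 : (s : Y.functionField) ≠ 0 := fun h0 => hs (by
        have : s = 0 := Subtype.ext h0
        rw [this]; exact Ideal.zero_mem _)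
      by_cases hb : b ∈ (P ⟨ζ, hζy⟩).asIdeal
      · right
        rw [hPπ, Ideal.mem_span_singleton] at hb
        obtain ⟨c, hc⟩ := hb
        refine ⟨c, s, hs, ?_⟩
        change a * (π : Y.functionField)⁻¹ * (s : Y.functionField) = c
        have e1 : a * (π : Y.functionField)⁻¹ * (s : Y.functionField) =
            (a * s) * (π : Y.functionField)⁻¹ := by ring
        rw [e1, h', hc]
        change (π : Y.functionField) * c * (π : Y.functionField)⁻¹ = c
        field_simp
      · left
        refine ⟨s, b, hb, ?_⟩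
        change a⁻¹ * (b : Y.functionField) = s
        have ha0 : a ≠ 0 := by
          rintro rfl
          apply hb
          have : b = 0 := Subtype.ext (by rw [← h', zero_mul]; rfl)
          rw [this]; exact Ideal.zero_mem _
        rw [← h', inv_mul_cancel_left₀ ha0]
    · intro hne
      refine (h4 Y ζ hζ π hπ0).1 hmem ?_
      rw [hst ⟨ζ, hζy⟩]
      refine inv_mem_locSubring (K := Y.functionField) (P ⟨ζ, hζy⟩).asIdeal ?_
      intro hmem'
      have hle1 : (P ⟨ξ, hξy⟩).asIdeal ≤ (P ⟨ζ, hζy⟩).asIdeal := by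
        rw [hPπ, Ideal.span_singleton_le_iff_mem]; exact hmem'
      have heq := eq_of_le_of_height_one (P ⟨ξ, hξy⟩).2 (P ⟨ζ, hζy⟩).2 hle1 hPξ hPζ
      have s1 : ξ ⤳ ζ := (hPle ⟨ξ, hξy⟩ ⟨ζ, hζy⟩).1 hle1
      have s2 : ζ ⤳ ξ := (hPle ⟨ζ, hζy⟩ ⟨ξ, hξy⟩).1 heq.ge
      exact hne (s2.antisymm s1).eq
  · refine ⟨1, one_ne_zero, ?_⟩
    intro ζ hζ hζy
    constructor
    · rintro rfl
      exact absurd hζy hξy
    · intro _
      exact (h4 Y ζ hζ 1 one_ne_zero).1 (one_mem _) (by rw [inv_one]; exact one_mem _)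

theorem normal [IsDomain R0]
    (hfr : @IsFractionRing R0 _ Y.functionField _ (algR f))
    (hpt : ∀ y, @PointData Y.functionField _ (algR f) Y _ f (stalkSubring Y) y)
    (h3 : ChartUFDStatement) (y : Y) : IsIntegrallyClosed (Y.presheaf.stalk y) := by
  letI : Algebra R0 Y.functionField := algR f
  letI : Algebra ℂ Y.functionField := algC f
  have : IsScalarTower ℂ R0 Y.functionField := IsScalarTower.of_algebraMap_eq' rfl
  obtain ⟨i, P, hst, hht, hPle, hsurj, -⟩ := hpt y
  obtain ⟨hN, hU⟩ := h3 Y.functionField i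
  have h1 : IsIntegrallyClosed (stalkSubring Y y) := by
    rw [hst ⟨y, specializes_rfl⟩]
    exact integrallyClosed_locSubring _
  have hinj : Function.Injective (algebraMap (Y.presheaf.stalk y) Y.functionField) :=
    IsFractionRing.injective _ _
  have h2 : IsIntegrallyClosed (algebraMap (Y.presheaf.stalk y) Y.functionField).range := h1
  exact IsIntegrallyClosed.of_equiv (RingEquiv.ofBijective
    (algebraMap (Y.presheaf.stalk y) Y.functionField).rangeRestrict
    ⟨fun a b h => hinj (congrArg Subtype.val h), RingHom.rangeRestrict_surjective _⟩).symm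

end Pts

end Pool.Agent.H66DE
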