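import Pool.Agent.Helper66_DE.Defs2

/-!
# Comparison of the two forms of the definitions
-/

open CategoryTheory CategoryTheory.Limits AlgebraicGeometry

noncomputable section

namespace Pool.Agent.H66DE.V

section Forms

variable {K : Type} [Field K] [Algebra ℂ K]

theorem smul_mem_regForms (A : Subring K) (c : K) (hc : c ∈ A) (z : Form K)
    (hz : z ∈ regForms K A) : c • z ∈ regForms K A := by
  induction hz using AddSubgroup.closure_induction with
  | mem x hx =>
    obtain ⟨d, a, hd, ha, rfl⟩ := hx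
    exact AddSubgroup.subset_closure ⟨c * d, a, A.mul_mem hc hd, ha, (mul_smul _ _ _).symm⟩
  | zero => rw [smul_zero]; exact (regForms K A).zero_mem
  | add x y _ _ hx hy => rw [smul_add]; exact (regForms K A).add_mem hx hy
  | neg x _ hx => rw [smul_neg]; exact (regForms K A).neg_mem hx

theorem mem_regForms_iff (A : Subring K) (w : ⋀[K]^3 (Ω[K⁄ℂ])) :
    @Membership.mem (Form K) (AddSubgroup (Form K)) _ (regForms K A) w ↔
      w ∈ formLattice K A := by
  constructor
  · intro hw
    refine AddSubgroup.closure_induction (G := Form K)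
      (p := fun x _ => @Membership.mem (⋀[K]^3 (Ω[K⁄ℂ])) _ _ (formLattice K A) x)
      ?_ ?_ ?_ ?_ hw
    · rintro x ⟨c, a, hc, ha, rfl⟩
      have h1 : exteriorPower.ιMulti K 3 (fun i => KaehlerDifferential.D ℂ K (a i)) ∈
        formLattice K A := Submodule.subset_span ⟨a, ha, rfl⟩
      exact (formLattice K A).smul_mem ⟨c, hc⟩ h1
    · exact (formLattice K A).zero_mem
    · intro x y _ _ hx hy
      exact (formLattice K A).add_mem hx hy
    · intro x _ hx
      exact (formLattice K A).neg_mem hx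
  · intro hw
    refine Submodule.span_induction
      (p := fun x _ => @Membership.mem (Form K) (AddSubgroup (Form K)) _ (regForms K A) x)
      ?_ ?_ ?_ ?_ hw
    · rintro x ⟨a, ha, rfl⟩
      exact AddSubgroup.subset_closure ⟨1, a, A.one_mem, ha, (one_smul _ _).symm⟩
    · exact (regForms K A).zero_mem
    · intro x y _ _ hx hy
      exact (regForms K A).add_mem hx hy
    · intro c x _ hx
      exact smul_mem_regForms A c c.2 x hx

theorem generates_iff (A : Subring K) (η : ⋀[K]^3 (Ω[K⁄ℂ])) :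
    Generates K A η ↔ formLattice K A = Submodule.span A {η} := by
  constructor
  · intro h
    ext w
    rw [← mem_regForms_iff, Submodule.mem_span_singleton]
    refine (h w).trans ⟨fun ⟨c, hc, e⟩ => ⟨⟨c, hc⟩, e.symm⟩, fun ⟨c, e⟩ => ⟨c, c.2, e.symm⟩⟩
  · intro h w
    have h1 := mem_regForms_iff A w
    rw [h, Submodule.mem_span_singleton] at h1
    exact h1.trans ⟨fun ⟨c, e⟩ => ⟨c, c.2, e.symm⟩, fun ⟨c, hc, e⟩ => ⟨⟨c, hc⟩, e.symm⟩⟩

theorem vanishesOn_of (V : ValuationSubring K) (η : ⋀[K]^3 (Ω[K⁄ℂ]))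
    (h : ∃ π : K, V.valuation π < 1 ∧ ∃ w ∈ formLattice K V.toSubring, η = π • w) :
    VanishesOn K V η := by
  obtain ⟨π, hπ, w, hw, e⟩ := h
  exact ⟨π, hπ, w, (mem_regForms_iff _ _).2 hw, e⟩

end Forms

section Canonical

variable {R K : Type} [CommRing R] [IsDomain R] [Field K] [Algebra R K] [FaithfulSMul R K]
  [Algebra ℂ K]

theorem generatesAt_iff (q : Ideal R) (η : ⋀[K]^3 (Ω[K⁄ℂ])) :
    GeneratesAt R K q η ↔ H66DE.GeneratesAt R K q η := by
  constructor
  · intro h p hp h1 h2
    exact (generates_iff _ _).1 (h p h1 h2)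
  · intro h p hp h1 h2
    exact (generates_iff _ _).2 (h p h1 h2)

theorem isCanonicalIn_of (h : H66DE.IsCanonicalIn R K) : IsCanonicalIn R K := by
  refine ⟨fun q hq => ?_, fun V hV hR q hq η hη => ?_⟩
  · obtain ⟨η, hη⟩ := h.1 q hq
    exact ⟨η, (generatesAt_iff q η).2 hη⟩
  · exact (mem_regForms_iff _ _).2 (h.2 V hV hR q hq η ((generatesAt_iff q η).1 hη))

end Canonical

theorem isCanonical_of {R : Type} [CommRing R] [IsDomain R] [Algebra ℂ R]
    (h : H66DE.IsCanonical R) : IsCanonical R := isCanonicalIn_of h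

section Schemes

/-- the same as `GeneratesAtPoint`, with the instance explicit -/
theorem generatesAtPoint_iff (Y : Scheme.{0}) [IsIntegral Y] (a : Algebra ℂ Y.functionField)
    (y : Y) (η : ⋀[Y.functionField]^3 (Ω[Y.functionField⁄ℂ])) :
    @GeneratesAtPoint Y _ a y η ↔ H66DE.GeneratesAtPoint Y y η := by
  constructor
  · intro h ξ h1 h2
    exact (generates_iff (stalkSubring Y ξ) η).1 (h ξ h1 h2)
  · intro h ξ h1 h2
    exact (generates_iff (stalkSubring Y ξ) η).2 (h ξ h1 h2)

theorem crepant_aux (R : Type) [CommRing R] [IsDomain R] (Y : Scheme.{0}) [IsIntegral Y]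
    (a : Algebra R Y.functionField) (b : Algebra ℂ Y.functionField) (P : Y → Ideal R)
    (h : ∃ _ : FaithfulSMul R Y.functionField, ∀ (y : Y)
      (η : ⋀[Y.functionField]^3 (Ω[Y.functionField⁄ℂ])),
      H66DE.GeneratesAt R Y.functionField (P y) η → H66DE.GeneratesAtPoint Y y η) :
    letI : Algebra R (FunField Y) := a
    letI : Algebra ℂ (FunField Y) := b
    ∃ _ : FaithfulSMul R (FunField Y), ∀ (y : Y) (η : Form (FunField Y)),
      GeneratesAt R (FunField Y) (P y) η → GeneratesAtPoint Y y η := by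
  obtain ⟨h1, h2⟩ := h
  refine ⟨h1, fun y η hη => ?_⟩
  exact (generatesAtPoint_iff Y b y η).2
    (h2 y η ((generatesAt_iff (K := Y.functionField) _ η).1 hη))

theorem terminal_aux (Y : Scheme.{0}) [IsIntegral Y] (b : Algebra ℂ Y.functionField)
    (h : (∀ y : Y, ∃ η, H66DE.GeneratesAtPoint Y y η) ∧
      ∀ y : Y, 2 ≤ Order.coheight y → ∀ η : ⋀[Y.functionField]^3 (Ω[Y.functionField⁄ℂ]),
        H66DE.GeneratesAtPoint Y y η → ∀ V : ValuationSubring Y.functionField,
          IsDivisorial Y.functionField V → stalkSubring Y y ≤ V.toSubring →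
          (∀ a ∈ stalkSubring Y y, V.valuation a = 1 → a⁻¹ ∈ stalkSubring Y y) →
          ∃ π : Y.functionField, V.valuation π < 1 ∧
            ∃ w ∈ formLattice Y.functionField V.toSubring, η = π • w) :
    letI : Algebra ℂ (FunField Y) := b
    (∀ y : Y, ∃ η, GeneratesAtPoint Y y η) ∧
    ∀ y : Y, 2 ≤ Order.coheight y → ∀ η : Form (FunField Y),
      GeneratesAtPoint Y y η → ∀ V : ValuationSubring (FunField Y),
        IsDivisorial (FunField Y) V → stalkSub Y y ≤ V.toSubring →
        (∀ a ∈ stalkSub Y y, V.valuation a = 1 → a⁻¹ ∈ stalkSub Y y) →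
        VanishesOn (FunField Y) V η := by
  refine ⟨fun y => ?_, fun y hy η hη V hV hle hdom => ?_⟩
  · obtain ⟨η, hη⟩ := h.1 y
    exact ⟨η, (generatesAtPoint_iff Y b y η).2 hη⟩
  · exact vanishesOn_of (K := Y.functionField) V η
      (h.2 y hy η ((generatesAtPoint_iff Y b y η).1 hη) V hV hle hdom)

variable {R : Type} [CommRing R]

theorem isCrepant_of [IsDomain R] [Algebra ℂ R] {Y : Scheme.{0}} [IsIntegral Y]
    (f : Y ⟶ Spec (CommRingCat.of R)) (h : H66DE.IsCrepant f) : IsCrepant f :=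
  crepant_aux R Y (toFF f).toAlgebra ((toFF f).comp (algebraMap ℂ R)).toAlgebra
    (fun y => (f y).asIdeal) h

theorem isTerminal_of [Algebra ℂ R] {Y : Scheme.{0}} [IsIntegral Y]
    (f : Y ⟶ Spec (CommRingCat.of R)) (h : H66DE.IsTerminal f) : IsTerminal f :=
  terminal_aux Y ((toFF f).comp (algebraMap ℂ R)).toAlgebra h

theorem isQFactorialTerminalization_of [IsDomain R] [Algebra ℂ R] {Y : Scheme.{0}} [IsIntegral Y]
    [IsLocallyNoetherian Y] (f : Y ⟶ Spec (CommRingCat.of R))
    (h : H66DE.IsQFactorialTerminalization f) : IsQFactorialTerminalization f :=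
  ⟨h.projective, h.birational, h.normal, isCrepant_of f h.crepant, isTerminal_of f h.terminal,
    h.qfactorial⟩

end Schemes

theorem dEq_iff (Y : Scheme.{0}) [IsLocallyNoetherian Y] (Λ : Type) [Ring Λ]
    [IsNoetherianRing Λ] : DEq Y Λ ↔ H66DE.DEq Y Λ := Iff.rfl

end Pool.Agent.H66DE.V
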