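import Mathlib

/-!
# The inclusion of one abelian subcategory in another is exact
-/

open CategoryTheory CategoryTheory.Limits

namespace Pool.Agent.H66DE

variable {C : Type*} [Category* C] [Abelian C] {P Q : ObjectProperty C} (h : P ≤ Q)
  [P.ContainsZero] [P.IsClosedUnderKernels] [P.IsClosedUnderCokernels]
  [P.IsClosedUnderFiniteProducts] [Q.ContainsZero] [Q.IsClosedUnderKernels]
  [Q.IsClosedUnderCokernels] [Q.IsClosedUnderFiniteProducts]

instance additive_ιOfLE : (ObjectProperty.ιOfLE h).Additive where
  map_add := rfl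

instance preservesLimit_ιOfLE {X Y : P.FullSubcategory} (f : X ⟶ Y) :
    PreservesLimit (parallelPair f 0) (ObjectProperty.ιOfLE h) := by
  have := P.preservesKernels_ι
  have h1 : PreservesLimit (parallelPair f 0) (ObjectProperty.ιOfLE h ⋙ Q.ι) :=
    inferInstanceAs (PreservesLimit (parallelPair f 0) P.ι)
  exact preservesLimit_of_reflects_of_preserves (ObjectProperty.ιOfLE h) Q.ι

instance preservesColimit_ιOfLE {X Y : P.FullSubcategory} (f : X ⟶ Y) :
    PreservesColimit (parallelPair f 0) (ObjectProperty.ιOfLE h) := by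
  have := P.preservesCokernels_ι
  have h1 : PreservesColimit (parallelPair f 0) (ObjectProperty.ιOfLE h ⋙ Q.ι) :=
    inferInstanceAs (PreservesColimit (parallelPair f 0) P.ι)
  exact preservesColimit_of_reflects_of_preserves (ObjectProperty.ιOfLE h) Q.ι

instance preservesFiniteLimits_ιOfLE : PreservesFiniteLimits (ObjectProperty.ιOfLE h) :=
  ((ObjectProperty.ιOfLE h).preservesFiniteLimits_tfae.out 2 3).1
    (fun _ _ f => preservesLimit_ιOfLE h f)

instance preservesFiniteColimits_ιOfLE : PreservesFiniteColimits (ObjectProperty.ιOfLE h) :=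
  ((ObjectProperty.ιOfLE h).preservesFiniteColimits_tfae.out 2 3).1
    (fun _ _ f => preservesColimit_ιOfLE h f)

end Pool.Agent.H66DE
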