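import Pool.Agent.Helper66_DE.Defs
import Pool.Agent.Helper23_DE.CLC

/-!
# Derived equivalence of a scheme and a ring

The instances say that quasi-coherent (resp. coherent) modules on a (locally noetherian) scheme
form an abelian subcategory of the category of all modules over the structure sheaf.
-/

open CategoryTheory CategoryTheory.Limits AlgebraicGeometry

noncomputable section

namespace Pool.Agent.H66DE

instance containsZero_isQCoh (Y : Scheme.{0}) : (IsQCoh Y).ContainsZero := (clq Y).1

instance isClosedUnderKernels_isQCoh (Y : Scheme.{0}) : (IsQCoh Y).IsClosedUnderKernels :=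
  (clq Y).2.1

instance isClosedUnderCokernels_isQCoh (Y : Scheme.{0}) : (IsQCoh Y).IsClosedUnderCokernels :=
  (clq Y).2.2.1

instance isClosedUnderFiniteProducts_isQCoh (Y : Scheme.{0}) :
    (IsQCoh Y).IsClosedUnderFiniteProducts := (clq Y).2.2.2

instance containsZero_isCoh (Y : Scheme.{0}) [IsLocallyNoetherian Y] : (IsCoh Y).ContainsZero :=
  (clc Y).1

instance isClosedUnderKernels_isCoh (Y : Scheme.{0}) [IsLocallyNoetherian Y] :
    (IsCoh Y).IsClosedUnderKernels := (clc Y).2.1

instance isClosedUnderCokernels_isCoh (Y : Scheme.{0}) [IsLocallyNoetherian Y] :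
    (IsCoh Y).IsClosedUnderCokernels := (clc Y).2.2.1

instance isClosedUnderFiniteProducts_isCoh (Y : Scheme.{0}) [IsLocallyNoetherian Y] :
    (IsCoh Y).IsClosedUnderFiniteProducts := (clc Y).2.2.2

attribute [local instance] HasDerivedCategory.standard

/-- Derived equivalence of a noetherian scheme `Y` and a noetherian ring `Λ`:
`D^b(coh Y) ≃ D^b(mod Λ)` as triangulated categories, where `mod Λ` is the category of finitely
generated left `Λ`-modules. -/
def DEq (Y : Scheme.{0}) [IsLocallyNoetherian Y] (Λ : Type) [Ring Λ] [IsNoetherianRing Λ] : Prop :=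
  TriEquiv (DerivedCategory.Bounded (IsCoh Y).FullSubcategory)
    (DerivedCategory.Bounded (FGModuleCat.{0} Λ))

end Pool.Agent.H66DE
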