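import Mathlib

/-!
# Derived equivalence of terminalizations and maximal modification algebras: definitions

Definitions used in the statement of `MP_9c87df_ag`.
-/

open CategoryTheory CategoryTheory.Limits AlgebraicGeometry

noncomputable section

namespace Pool.Agent.H66DE

/-! ## Commutative algebra -/

section Algebra

/-- Finitely generated maximal Cohen-Macaulay modules: for every maximal ideal `m`,
`Ext^i_R(R/m, M) = 0` for all `i < ht m = dim R_m`, that is `depth M_m ≥ dim R_m`
(equivalently `M_m = 0` or `depth M_m = dim R_m`). -/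
def IsCM (R : Type) [CommRing R] (M : Type) [AddCommGroup M] [Module R M] : Prop :=
  Module.Finite R M ∧ ∀ m : Ideal R, m.IsMaximal → ∀ i : ℕ, (i : ℕ∞) < m.height →
    Subsingleton (Abelian.Ext (ModuleCat.of R (R ⧸ m)) (ModuleCat.of R M) i)

/-- A noetherian ring of finite self-injective dimension (for noetherian rings of finite Krull
dimension this is the same as being Gorenstein). -/
def IsGorenstein (R : Type) [CommRing R] : Prop :=
  IsNoetherianRing R ∧ ∃ n : ℕ, HasInjectiveDimensionLT (ModuleCat.of R R) n

/-- `Y ∈ add M`: `Y` is a direct summand of some `M^n`. -/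
def InAdd (R : Type) [CommRing R] (M Y : Type) [AddCommGroup M] [Module R M]
    [AddCommGroup Y] [Module R Y] : Prop :=
  ∃ (n : ℕ) (i : Y →ₗ[R] (Fin n → M)) (p : (Fin n → M) →ₗ[R] Y), p ∘ₗ i = LinearMap.id

/-- Modifying modules: finitely generated reflexive modules whose endomorphism ring is
maximal Cohen-Macaulay. -/
def IsModifying (R : Type) [CommRing R] (M : Type) [AddCommGroup M] [Module R M] : Prop :=
  Module.Finite R M ∧ Module.IsReflexive R M ∧ IsCM R (Module.End R M)

/-- Maximal modifying modules. -/
def IsMM (R : Type) [CommRing R] (M : Type) [AddCommGroup M] [Module R M] : Prop :=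
  IsModifying R M ∧ ∀ (Y : Type) [AddCommGroup Y] [Module R Y], Module.Finite R Y →
    Module.IsReflexive R Y → IsModifying R (M × Y) → InAdd R M Y

end Algebra

/-! ## Differential forms and valuations -/

section Forms

open scoped Classical

variable (K : Type) [Field K] [Algebra ℂ K]

/-- For a subring `A` of `K`, the `A`-submodule of `⋀^3 Ω_{K/ℂ}` spanned by the forms
`da₁ ∧ da₂ ∧ da₃` with `aᵢ ∈ A` (the image of `⋀^3 Ω_{A/ℂ}`). -/
def formLattice (A : Subring K) : Submodule A (⋀[K]^3 (Ω[K⁄ℂ])) :=
  Submodule.span A {w | ∃ a : Fin 3 → K, (∀ i, a i ∈ A) ∧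
    w = exteriorPower.ιMulti K 3 (fun i => KaehlerDifferential.D ℂ K (a i))}

/-- Divisorial valuation rings of a function field `K/ℂ` of transcendence degree three:
discrete valuation rings of `K` which contain `ℂ` and whose residue field has transcendence
degree two, i.e. there are two elements whose residues are algebraically independent. -/
structure IsDivisorial (V : ValuationSubring K) : Prop where
  const : ∀ c : ℂ, algebraMap ℂ K c ∈ V
  dvr : IsDiscreteValuationRing V
  trdeg : ∃ u v : K, u ∈ V ∧ v ∈ V ∧ ∀ F : MvPolynomial (Fin 2) ℂ, F ≠ 0 →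
    V.valuation (MvPolynomial.aeval ![u, v] F) = 1

end Forms

/-- The local ring `R_p` as a subring of the fraction field `K` of `R`. -/
def locSubring (R K : Type) [CommRing R] [IsDomain R] [Field K] [Algebra R K] [FaithfulSMul R K]
    (p : Ideal R) [hp : p.IsPrime] : Subring K where
  carrier := {z | ∃ a s : R, s ∉ p ∧ z * algebraMap R K s = algebraMap R K a}
  mul_mem' := by
    rintro z w ⟨a, s, hs, h⟩ ⟨b, t, ht, h'⟩
    refine ⟨a * b, s * t, fun h => (hp.mem_or_mem h).elim hs ht, ?_⟩
    rw [map_mul, map_mul, ← h, ← h']; ring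
  one_mem' := ⟨1, 1, fun h => hp.ne_top ((Ideal.eq_top_iff_one _).2 h), by simp⟩
  add_mem' := by
    rintro z w ⟨a, s, hs, h⟩ ⟨b, t, ht, h'⟩
    refine ⟨a * t + b * s, s * t, fun h => (hp.mem_or_mem h).elim hs ht, ?_⟩
    rw [map_add, map_mul, map_mul, map_mul, ← h, ← h']; ring
  zero_mem' := ⟨0, 1, fun h => hp.ne_top ((Ideal.eq_top_iff_one _).2 h), by simp⟩
  neg_mem' := by
    rintro z ⟨a, s, hs, h⟩
    exact ⟨-a, s, hs, by rw [map_neg, ← h]; ring⟩

section Canonical

variable (R K : Type) [CommRing R] [IsDomain R] [Field K] [Algebra R K] [FaithfulSMul R K]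
  [Algebra ℂ K]

/-- The rational three-form `η` generates the canonical module `ω_R` at the prime `q`:
it generates the regular three-forms at every codimension one point of `Spec R_q`. -/
def GeneratesAt (q : Ideal R) (η : ⋀[K]^3 (Ω[K⁄ℂ])) : Prop :=
  ∀ (p : Ideal R) [p.IsPrime], p.height = 1 → p ≤ q →
    formLattice K (locSubring R K p) = Submodule.span (locSubring R K p) {η}

/-- Canonical singularities of a normal Gorenstein domain `R` of dimension three of finite type
over `ℂ`, `K` its fraction field: `ω_R` is invertible (automatic for Gorenstein `R`), and for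
every divisorial valuation ring `V` of `K` centred on `Spec R`, the generators of `ω_R` at the
centre of `V` are regular on `V` (the discrepancies are non-negative). -/
def IsCanonicalIn : Prop :=
  (∀ q : Ideal R, q.IsPrime → ∃ η, GeneratesAt R K q η) ∧
  ∀ V : ValuationSubring K, IsDivisorial K V → (∀ r : R, algebraMap R K r ∈ V) →
    ∀ q : Ideal R, (∀ r : R, r ∈ q ↔ V.valuation (algebraMap R K r) < 1) →
      ∀ η, GeneratesAt R K q η → η ∈ formLattice K V.toSubring

end Canonical

/-- Canonical singularities, with `K = Frac R`. -/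
def IsCanonical (R : Type) [CommRing R] [IsDomain R] [Algebra ℂ R] : Prop :=
  IsCanonicalIn R (FractionRing R)

/-! ## Schemes over `Spec R` -/

section Schemes

variable {R : Type} [CommRing R]

/-- `f : Y → Spec R` is projective: `Y = Proj A` over `Spec R` for an `ℕ`-graded `R`-algebra `A`
which is generated over `R` by finitely many elements of degree one. -/
def IsProjectiveMor {Y : Scheme.{0}} (f : Y ⟶ Spec (CommRingCat.of R)) : Prop :=
  ∃ (A : Type) (_ : CommRing A) (_ : Algebra R A) (𝒜 : ℕ → Submodule R A) (_ : GradedAlgebra 𝒜)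
    (_ : ∃ s : Finset A, (∀ a ∈ s, a ∈ 𝒜 1) ∧ Algebra.adjoin R (s : Set A) = ⊤)
    (e : Y ≅ Proj 𝒜), f = e.hom ≫ Proj.toSpecZero 𝒜 ≫
      Spec.map (CommRingCat.ofHom (algebraMap R (𝒜 0)))

/-- `f : Y → Spec R` is birational: an isomorphism over a nonempty open subset
(`R` a domain, `Y` integral). -/
def IsBirationalMor {Y : Scheme.{0}} (f : Y ⟶ Spec (CommRingCat.of R)) : Prop :=
  ∃ U : (Spec (CommRingCat.of R)).Opens, U ≠ ⊥ ∧ IsIso (f ∣_ U)

/-- The ring homomorphism from `R` to the function field of an integral scheme over `Spec R`. -/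
def toFF {Y : Scheme.{0}} [IsIntegral Y] (f : Y ⟶ Spec (CommRingCat.of R)) :
    R →+* Y.functionField :=
  (Y.presheaf.germ ⊤ (genericPoint Y) trivial).hom.comp
    (f.appTop.hom.comp (Scheme.ΓSpecIso (CommRingCat.of R)).inv.hom)

/-- The local ring `O_{Y,y}` as a subring of the function field. -/
def stalkSubring (Y : Scheme.{0}) [IsIntegral Y] (y : Y) : Subring Y.functionField :=
  (algebraMap (Y.presheaf.stalk y) Y.functionField).range

/-- The rational three-form `η` generates the canonical sheaf of `Y` at `y`: it generates the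
regular three-forms at all codimension one points specializing to `y`. -/
def GeneratesAtPoint (Y : Scheme.{0}) [IsIntegral Y] [Algebra ℂ Y.functionField] (y : Y)
    (η : ⋀[Y.functionField]^3 (Ω[Y.functionField⁄ℂ])) : Prop :=
  ∀ ξ : Y, Order.coheight ξ = 1 → ξ ⤳ y →
    formLattice Y.functionField (stalkSubring Y ξ) =
      Submodule.span (stalkSubring Y ξ) {η}

/-- Crepant: a generator of the canonical module of `R` at `f y` generates the canonical sheaf of
`Y` at `y`, i.e. `ω_Y = f^* ω_R`, for `Y` normal, birational over `Spec R`. -/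
def IsCrepant [IsDomain R] [Algebra ℂ R] {Y : Scheme.{0}} [IsIntegral Y]
    (f : Y ⟶ Spec (CommRingCat.of R)) : Prop :=
  letI : Algebra R Y.functionField := (toFF f).toAlgebra
  letI : Algebra ℂ Y.functionField := ((toFF f).comp (algebraMap ℂ R)).toAlgebra
  ∃ _ : FaithfulSMul R Y.functionField, ∀ (y : Y) (η : ⋀[Y.functionField]^3 (Ω[Y.functionField⁄ℂ])),
    GeneratesAt R Y.functionField (f y).asIdeal η → GeneratesAtPoint Y y η

/-- Terminal singularities (for `Y` normal of dimension three with invertible canonical sheaf):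
for every point `y` of codimension at least two, every generator `η` of the canonical sheaf at
`y`, and every divisorial valuation ring `V` dominating `O_{Y,y}`, the form `η` vanishes along
`V` (the discrepancy is positive). -/
def IsTerminal [Algebra ℂ R] {Y : Scheme.{0}} [IsIntegral Y]
    (f : Y ⟶ Spec (CommRingCat.of R)) : Prop :=
  letI : Algebra ℂ Y.functionField := ((toFF f).comp (algebraMap ℂ R)).toAlgebra
  (∀ y : Y, ∃ η, GeneratesAtPoint Y y η) ∧
  ∀ y : Y, 2 ≤ Order.coheight y → ∀ η : ⋀[Y.functionField]^3 (Ω[Y.functionField⁄ℂ]),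
    GeneratesAtPoint Y y η → ∀ V : ValuationSubring Y.functionField,
      IsDivisorial Y.functionField V → stalkSubring Y y ≤ V.toSubring →
      (∀ a ∈ stalkSubring Y y, V.valuation a = 1 → a⁻¹ ∈ stalkSubring Y y) →
      ∃ π : Y.functionField, V.valuation π < 1 ∧
        ∃ w ∈ formLattice Y.functionField V.toSubring, η = π • w

/-- `ℚ`-factorial: for every prime divisor `ξ` (a point of codimension one) there is `n ≥ 1` such
that `n ξ` is Cartier: near every point `y` it is the divisor of a rational function. -/
def IsQFactorial (Y : Scheme.{0}) [IsIntegral Y] [IsLocallyNoetherian Y] : Prop :=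
  ∀ ξ : Y, Order.coheight ξ = 1 → ∃ n : ℕ, 1 ≤ n ∧ ∀ y : Y, ∃ g : Y.functionField, g ≠ 0 ∧
    ∀ ζ : Y, Order.coheight ζ = 1 → ζ ⤳ y →
      (ζ = ξ → Scheme.ord g ζ = n) ∧ (ζ ≠ ξ → Scheme.ord g ζ = 0)

/-- `ℚ`-factorial terminalizations of `Spec R`, for `R` a normal Gorenstein domain of dimension
three of finite type over `ℂ`. -/
structure IsQFactorialTerminalization [IsDomain R] [Algebra ℂ R] {Y : Scheme.{0}} [IsIntegral Y]
    [IsLocallyNoetherian Y] (f : Y ⟶ Spec (CommRingCat.of R)) : Prop where
  projective : IsProjectiveMor f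
  birational : IsBirationalMor f
  normal : ∀ y : Y, IsIntegrallyClosed (Y.presheaf.stalk y)
  crepant : IsCrepant f
  terminal : IsTerminal f
  qfactorial : IsQFactorial Y

end Schemes

/-! ## Coherent sheaves and derived categories -/

section Coherent

/-- Quasi-coherent modules. -/
def IsQCoh (Y : Scheme.{0}) : ObjectProperty Y.Modules := fun M => M.IsQuasicoherent

/-- Coherent modules on a locally noetherian scheme: quasi-coherent, with finitely generated
sections on every affine open. -/
def IsCoh (Y : Scheme.{0}) : ObjectProperty Y.Modules := fun M =>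
  M.IsQuasicoherent ∧ ∀ U : Y.Opens, IsAffineOpen U → Module.Finite Γ(Y, U) Γ(M, U)

/-- Triangulated equivalence. -/
def TriEquiv (C D : Type*) [Category* C] [Category* D] [HasShift C ℤ] [HasShift D ℤ]
    [Preadditive C] [Preadditive D] [HasZeroObject C] [HasZeroObject D]
    [∀ n : ℤ, (shiftFunctor C n).Additive] [∀ n : ℤ, (shiftFunctor D n).Additive]
    [Pretriangulated C] [Pretriangulated D] : Prop :=
  ∃ (F : C ≌ D) (_ : F.functor.CommShift ℤ), F.functor.IsTriangulated

end Coherent

end Pool.Agent.H66DE
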