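import Pool.Agent.Helper66_DE.Defs
import Pool.Agent.Helper66_DE.DEq

/-!
# Derived equivalence of terminalizations and maximal modification algebras: definitions, part 2

The definitions of `Defs.lean` on canonical and terminal singularities, crepant morphisms and
derived equivalence, in a form with shorter terms. They are the ones used in the statement.
-/

open CategoryTheory CategoryTheory.Limits AlgebraicGeometry

noncomputable section

namespace Pool.Agent.H66DE.V

/-! ## Differential forms and valuations -/

section Forms

/-- The third exterior power `⋀^3 M` of a `K`-vector space `M`. -/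
def Ext3 (K M : Type) [Field K] [AddCommGroup M] [Module K M] : Type := ⋀[K]^3 M

instance instAddCommGroupExt3 (K M : Type) [Field K] [AddCommGroup M] [Module K M] :
    AddCommGroup (Ext3 K M) := (inferInstance : AddCommGroup (⋀[K]^3 M))

instance instModuleExt3 (K M : Type) [Field K] [AddCommGroup M] [Module K M] :
    Module K (Ext3 K M) := (inferInstance : Module K (⋀[K]^3 M))

/-- `v₁ ∧ v₂ ∧ v₃` -/
def wedge3 (K M : Type) [Field K] [AddCommGroup M] [Module K M] (v : Fin 3 → M) : Ext3 K M :=
  exteriorPower.ιMulti K 3 v

/-- The Kähler differentials `Ω_{K/ℂ}` of a field `K` over `ℂ`. -/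
def Omega (K : Type) [Field K] [Algebra ℂ K] : Type := Ω[K⁄ℂ]

instance instAddCommGroupOmega (K : Type) [Field K] [Algebra ℂ K] : AddCommGroup (Omega K) :=
  (inferInstance : AddCommGroup (Ω[K⁄ℂ]))

instance instModuleOmega (K : Type) [Field K] [Algebra ℂ K] : Module K (Omega K) :=
  (inferInstance : Module K (Ω[K⁄ℂ]))

/-- The universal derivation `K → Ω_{K/ℂ}`. -/
def dOmega (K : Type) [Field K] [Algebra ℂ K] (a : K) : Omega K := KaehlerDifferential.D ℂ K a

variable (K : Type) [Field K] [Algebra ℂ K]

/-- Rational three-forms `⋀^3 Ω_{K/ℂ}` of a field `K` over `ℂ`. -/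
abbrev Form : Type := Ext3 K (Omega K)

/-- The three-form `da₁ ∧ da₂ ∧ da₃`. -/
def wedge (a : Fin 3 → K) : Form K := wedge3 K (Omega K) (fun i => dOmega K (a i))

/-- Regular three-forms of a subring `A` of `K`: the sums of forms `c da₁ ∧ da₂ ∧ da₃` with
`c, a₁, a₂, a₃ ∈ A`, i.e. the image of `⋀^3 Ω_{A/ℂ}`. -/
def regForms (A : Subring K) : AddSubgroup (Form K) :=
  AddSubgroup.closure {w | ∃ (c : K) (a : Fin 3 → K), c ∈ A ∧ (∀ i, a i ∈ A) ∧ w = c • wedge K a}

/-- `η` generates the regular three-forms of `A`. -/
def Generates (A : Subring K) (η : Form K) : Prop :=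
  ∀ w : Form K, w ∈ regForms K A ↔ ∃ c ∈ A, w = c • η

/-- `η` vanishes along the valuation ring `V`: it is the product of a regular three-form of `V`
with an element of the maximal ideal of `V`. -/
def VanishesOn (V : ValuationSubring K) (η : Form K) : Prop :=
  ∃ π : K, V.valuation π < 1 ∧ ∃ w ∈ regForms K V.toSubring, η = π • w

end Forms

section Canonical

variable (R K : Type) [CommRing R] [IsDomain R] [Field K] [Algebra R K] [FaithfulSMul R K]
  [Algebra ℂ K]

/-- The rational three-form `η` generates the canonical module `ω_R` at the prime `q`: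
it generates the regular three-forms at every codimension one point of `Spec R_q`. -/
def GeneratesAt (q : Ideal R) (η : Form K) : Prop :=
  ∀ (p : Ideal R) [p.IsPrime], p.height = 1 → p ≤ q → Generates K (locSubring R K p) η

/-- Canonical singularities of a normal Gorenstein domain `R` of dimension three of finite type
over `ℂ`, `K` its fraction field: `ω_R` is invertible (automatic for Gorenstein `R`), and for
every divisorial valuation ring `V` of `K` centred on `Spec R`, the generators of `ω_R` at the
centre of `V` are regular on `V` (the discrepancies are non-negative). -/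
def IsCanonicalIn : Prop :=
  (∀ q : Ideal R, q.IsPrime → ∃ η, GeneratesAt R K q η) ∧
  ∀ V : ValuationSubring K, IsDivisorial K V → (∀ r : R, algebraMap R K r ∈ V) →
    ∀ q : Ideal R, (∀ r : R, r ∈ q ↔ V.valuation (algebraMap R K r) < 1) →
      ∀ η, GeneratesAt R K q η → η ∈ regForms K V.toSubring

end Canonical

/-- Canonical singularities, with `K = Frac R`. -/
def IsCanonical (R : Type) [CommRing R] [IsDomain R] [Algebra ℂ R] : Prop :=
  IsCanonicalIn R (FractionRing R)

/-! ## Schemes over `Spec R` -/

section Schemes

/-- The function field of an integral scheme. -/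
def FunField (Y : Scheme.{0}) [IsIntegral Y] : Type := Y.functionField

instance instFieldFunField (Y : Scheme.{0}) [IsIntegral Y] : Field (FunField Y) :=
  (inferInstance : Field Y.functionField)

/-- The local ring `O_{Y,y}` as a subring of the function field. -/
def stalkSub (Y : Scheme.{0}) [IsIntegral Y] (y : Y) : Subring (FunField Y) := stalkSubring Y y

/-- The rational three-form `η` generates the canonical sheaf of `Y` at `y`: it generates the
regular three-forms at all codimension one points specializing to `y`. -/
def GeneratesAtPoint (Y : Scheme.{0}) [IsIntegral Y] [Algebra ℂ (FunField Y)] (y : Y)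
    (η : Form (FunField Y)) : Prop :=
  ∀ ξ : Y, Order.coheight ξ = 1 → ξ ⤳ y → Generates (FunField Y) (stalkSub Y ξ) η

variable {R : Type} [CommRing R]

/-- The homomorphism from `R` to the function field of an integral scheme over `Spec R`. -/
def toFun {Y : Scheme.{0}} [IsIntegral Y] (f : Y ⟶ Spec (CommRingCat.of R)) :
    R →+* FunField Y := toFF f

/-- Crepant: a generator of the canonical module of `R` at `f y` generates the canonical sheaf of
`Y` at `y`, i.e. `ω_Y = f^* ω_R`, for `Y` normal, birational over `Spec R`. -/
def IsCrepant [IsDomain R] [Algebra ℂ R] {Y : Scheme.{0}} [IsIntegral Y]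
    (f : Y ⟶ Spec (CommRingCat.of R)) : Prop :=
  letI : Algebra R (FunField Y) := (toFun f).toAlgebra
  letI : Algebra ℂ (FunField Y) := ((toFun f).comp (algebraMap ℂ R)).toAlgebra
  ∃ _ : FaithfulSMul R (FunField Y), ∀ (y : Y) (η : Form (FunField Y)),
    GeneratesAt R (FunField Y) (f y).asIdeal η → GeneratesAtPoint Y y η

/-- Terminal singularities (for `Y` normal of dimension three with invertible canonical sheaf):
for every point `y` of codimension at least two, every generator `η` of the canonical sheaf at
`y`, and every divisorial valuation ring `V` dominating `O_{Y,y}`, the form `η` vanishes along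
`V` (the discrepancy is positive). -/
def IsTerminal [Algebra ℂ R] {Y : Scheme.{0}} [IsIntegral Y]
    (f : Y ⟶ Spec (CommRingCat.of R)) : Prop :=
  letI : Algebra ℂ (FunField Y) := ((toFun f).comp (algebraMap ℂ R)).toAlgebra
  (∀ y : Y, ∃ η, GeneratesAtPoint Y y η) ∧
  ∀ y : Y, 2 ≤ Order.coheight y → ∀ η : Form (FunField Y),
    GeneratesAtPoint Y y η → ∀ V : ValuationSubring (FunField Y),
      IsDivisorial (FunField Y) V → stalkSub Y y ≤ V.toSubring →
      (∀ a ∈ stalkSub Y y, V.valuation a = 1 → a⁻¹ ∈ stalkSub Y y) →
      VanishesOn (FunField Y) V η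

/-- `ℚ`-factorial terminalizations of `Spec R`, for `R` a normal Gorenstein domain of dimension
three of finite type over `ℂ`. -/
structure IsQFactorialTerminalization [IsDomain R] [Algebra ℂ R] {Y : Scheme.{0}} [IsIntegral Y]
    [IsLocallyNoetherian Y] (f : Y ⟶ Spec (CommRingCat.of R)) : Prop where
  projective : IsProjectiveMor f
  birational : IsBirationalMor f
  normal : ∀ y : Y, IsIntegrallyClosed (Y.presheaf.stalk y)
  crepant : IsCrepant f
  terminal : IsTerminal f
  qfactorial : IsQFactorial Y

end Schemes

/-! ## Derived categories -/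

/-- The abelian category of coherent modules on a locally noetherian scheme. -/
def Coh (Y : Scheme.{0}) [IsLocallyNoetherian Y] : Type 1 := (IsCoh Y).FullSubcategory

instance instCategoryCoh (Y : Scheme.{0}) [IsLocallyNoetherian Y] : Category.{0} (Coh Y) :=
  (inferInstance : Category.{0} (IsCoh Y).FullSubcategory)

instance instAbelianCoh (Y : Scheme.{0}) [IsLocallyNoetherian Y] : Abelian (Coh Y) :=
  (inferInstance : Abelian (IsCoh Y).FullSubcategory)

attribute [local instance] HasDerivedCategory.standard

/-- `D^b(C) ≃ D^b(D)` as triangulated categories. -/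
def DbEquiv (C D : Type 1) [Category.{0} C] [Category.{0} D] [Abelian C] [Abelian D] : Prop :=
  TriEquiv (DerivedCategory.Bounded C) (DerivedCategory.Bounded D)

/-- Derived equivalence of a noetherian scheme `Y` and a noetherian ring `Λ`:
`D^b(coh Y) ≃ D^b(mod Λ)` as triangulated categories, where `mod Λ` is the category of finitely
generated left `Λ`-modules. -/
def DEq (Y : Scheme.{0}) [IsLocallyNoetherian Y] (Λ : Type) [Ring Λ] [IsNoetherianRing Λ] : Prop :=
  DbEquiv (Coh Y) (FGModuleCat.{0} Λ)

end Pool.Agent.H66DE.V
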