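import Pool.Agent.Helper66_DE.Statements

/-!
# `R0` is a maximal modifying module over itself (assembly)
-/

open CategoryTheory CategoryTheory.Limits

noncomputable section

namespace Pool.Agent.H66DE

/-- invariance of CM under isomorphism / direct summands -/
theorem IsCM.of_retract {R : Type} [CommRing R] {M N : Type} [AddCommGroup M] [Module R M]
    [AddCommGroup N] [Module R N] (h : IsCM R M) (i : N →ₗ[R] M) (p : M →ₗ[R] N)
    (hp : p ∘ₗ i = LinearMap.id) : IsCM R N := by
  obtain ⟨hf, hE⟩ := h
  refine ⟨Module.Finite.of_surjective p (fun n => ⟨i n, LinearMap.congr_fun hp n⟩), ?_⟩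
  intro m hm k hk
  have hs := hE m hm k hk
  refine ⟨fun a b => ?_⟩
  have key : ∀ e : Abelian.Ext (ModuleCat.of R (R ⧸ m)) (ModuleCat.of R N) k, e = 0 := by
    intro e
    have h1 : e = (e.comp (Abelian.Ext.mk₀ (ModuleCat.ofHom i)) (add_zero k)).comp
        (Abelian.Ext.mk₀ (ModuleCat.ofHom p)) (add_zero k) := by
      rw [Abelian.Ext.comp_assoc_of_third_deg_zero, Abelian.Ext.mk₀_comp_mk₀,
        ← ModuleCat.ofHom_comp, hp]
      change _ = e.comp (Abelian.Ext.mk₀ (𝟙 _)) _
      rw [Abelian.Ext.comp_mk₀_id]
    rw [h1, Subsingleton.elim (e.comp (Abelian.Ext.mk₀ (ModuleCat.ofHom i)) (add_zero k)) 0,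
      Abelian.Ext.zero_comp]
  rw [key a, key b]

theorem IsCM.of_equiv {R : Type} [CommRing R] {M N : Type} [AddCommGroup M] [Module R M]
    [AddCommGroup N] [Module R N] (h : IsCM R M) (e : M ≃ₗ[R] N) : IsCM R N :=
  h.of_retract e.symm.toLinearMap e.toLinearMap (by ext; simp)



theorem fR_monic : fR.Monic := Polynomial.monic_X_pow_add_C gS (by norm_num)

instance finiteR0 : Module.Finite S R0 := fR_monic.finite_adjoinRoot
instance freeR0 : Module.Free S R0 := fR_monic.free_adjoinRoot

theorem xR_pow : xR ^ 4 = - algebraMap S R0 gS := by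
  have h : AdjoinRoot.mk fR (Polynomial.X ^ 4 + Polynomial.C gS) = 0 := AdjoinRoot.mk_self
  rw [map_add, map_pow, AdjoinRoot.mk_X, AdjoinRoot.mk_C] at h
  exact eq_neg_of_add_eq_zero_left h

theorem linear_of_comm {M₁ M₂ : Type} [AddCommGroup M₁] [Module R0 M₁] [Module S M₁]
    [IsScalarTower S R0 M₁] [AddCommGroup M₂] [Module R0 M₂] [Module S M₂]
    [IsScalarTower S R0 M₂] (f : M₁ →ₗ[S] M₂) (hf : ∀ m, f (xR • m) = xR • f m) (r : R0) (m : M₁) :
    f (r • m) = r • f m := by
  induction r using AdjoinRoot.induction_on with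
  | ih p =>
    induction p using Polynomial.induction_on' generalizing m with
    | add p q hp hq => rw [map_add, add_smul, map_add, hp, hq, add_smul]
    | monomial k a =>
      have hk : ∀ (k : ℕ) (m : M₁), f (xR ^ k • m) = xR ^ k • f m := by
        intro k
        induction k with
        | zero => intro m; simp
        | succ k ih => intro m; rw [pow_succ, mul_smul, ih, hf, mul_smul]
      have h1 : AdjoinRoot.mk fR (Polynomial.monomial k a) = algebraMap S R0 a * xR ^ k := by
        rw [← Polynomial.C_mul_X_pow_eq_monomial, map_mul, map_pow, AdjoinRoot.mk_X]; rfl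
      rw [h1, mul_smul, mul_smul, algebraMap_smul, map_smul, hk, algebraMap_smul]

section
variable (N : Type) [AddCommGroup N] [Module R0 N] [Module S N] [IsScalarTower S R0 N]

/-- multiplication by `x` -/
def phiN : Module.End S N where
  toFun n := xR • n
  map_add' := smul_add _
  map_smul' s n := by
    simp only [RingHom.id_apply]
    rw [← algebraMap_smul R0 s n, ← algebraMap_smul R0 s (xR • n), smul_smul, smul_smul, mul_comm]

theorem phiN_apply (n : N) : phiN N n = xR • n := rfl

theorem phiN_pow_apply (k : ℕ) (n : N) : (phiN N ^ k) n = xR ^ k • n := by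
  induction k generalizing n with
  | zero => simp
  | succ k ih => rw [pow_succ, Module.End.mul_apply, ih, phiN_apply, smul_smul, pow_succ]

theorem phiN_pow : phiN N ^ 4 = - algebraMap S (Module.End S N) gS := by
  ext n
  rw [phiN_pow_apply, xR_pow, neg_smul, LinearMap.neg_apply, algebraMap_smul]
  rfl

omit [Module R0 N] [IsScalarTower S R0 N] in
theorem aOp_one (φ k : Module.End S N) : aOp 1 φ k = φ * k - k * φ := by
  simp [aOp]

omit [Module R0 N] [IsScalarTower S R0 N] in
theorem bOp_one (φ h : Module.End S N) :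
    bOp 1 φ h = ∑ i ∈ Finset.range 4, φ ^ (3 - i) * (h * φ ^ i) := by
  simp [bOp]

/-- endomorphisms over `R0` are the endomorphisms over `S` commuting with `x`. -/
def endEquiv : Module.End R0 N ≃ₗ[S] LinearMap.ker (aOp 1 (phiN N)) where
  toFun u := ⟨u.restrictScalars S, by
    rw [LinearMap.mem_ker, aOp_one, sub_eq_zero]
    ext n
    simp [phiN_apply]⟩
  map_add' u v := by ext; rfl
  map_smul' s u := by ext; rfl
  invFun h :=
    { toFun := h.1
      map_add' := map_add _
      map_smul' := fun r n => linear_of_comm h.1 (fun m => by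
        have := h.2
        rw [LinearMap.mem_ker, aOp_one, sub_eq_zero] at this
        exact (LinearMap.congr_fun this m).symm) r n }
  left_inv u := by ext; rfl
  right_inv h := by ext; rfl

end


/-- projectivity over `R0` from the trace equation -/
theorem projective_of_trace (N : Type) [AddCommGroup N] [Module R0 N] [Module S N]
    [IsScalarTower S R0 N] [Module.Projective S N] (u : Module.End S N)
    (hu : bOp 1 (phiN N) u = 1) : Module.Projective R0 N := by
  have hπ : ∀ n : N, ∑ i ∈ Finset.range 4, xR ^ (3 - i) • u (xR ^ i • n) = n := by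
    intro n
    have h1 := LinearMap.congr_fun hu n
    rw [bOp_one] at h1
    simp only [LinearMap.sum_apply, Module.End.mul_apply, phiN_pow_apply,
      Module.End.one_apply] at h1
    exact h1
  -- the section
  obtain ⟨s0, hs0⟩ : ∃ s0 : N →ₗ[S] TensorProduct S R0 N, ∀ n,
      s0 n = ∑ i ∈ Finset.range 4, (xR ^ (3 - i)) ⊗ₜ[S] u (xR ^ i • n) := by
    refine ⟨∑ i ∈ Finset.range 4,
      (TensorProduct.mk S R0 N (xR ^ (3 - i))) ∘ₗ (u * phiN N ^ i), fun n => ?_⟩
    simp only [LinearMap.sum_apply, LinearMap.comp_apply, TensorProduct.mk_apply,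
      Module.End.mul_apply, phiN_pow_apply]
  have hlin : ∀ m, s0 (xR • m) = xR • s0 m := by
    intro m
    have h4 : (1 : R0) ⊗ₜ[S] u (xR ^ 4 • m) = (xR ^ 4 : R0) ⊗ₜ[S] u m := by
      rw [xR_pow, neg_smul, algebraMap_smul, map_neg, map_smul, TensorProduct.tmul_neg,
        TensorProduct.neg_tmul, TensorProduct.tmul_smul, TensorProduct.smul_tmul',
        Algebra.smul_def, mul_one]
    rw [hs0, hs0]
    rw [Finset.smul_sum]
    simp only [Finset.sum_range_succ, Finset.sum_range_zero, zero_add, TensorProduct.smul_tmul',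
      smul_smul, smul_eq_mul]
    have e0 : xR ^ 0 * xR = xR ^ 1 := by ring
    have e1 : xR ^ 1 * xR = xR ^ 2 := by ring
    have e2 : xR ^ 2 * xR = xR ^ 3 := by ring
    have e3 : xR ^ 3 * xR = xR ^ 4 := by ring
    have f0 : xR * xR ^ (3 - 0) = xR ^ 4 := by ring
    have f1 : xR * xR ^ (3 - 1) = xR ^ (3 - 0) := by ring
    have f2 : xR * xR ^ (3 - 2) = xR ^ (3 - 1) := by ring
    have f3 : xR * xR ^ (3 - 3) = xR ^ (3 - 2) := by ring
    rw [e0, e1, e2, e3, f0, f1, f2, f3, show xR ^ (3 - 3) = (1 : R0) by simp, h4,
      show (1 : R0) • m = m from one_smul _ _]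
    abel
  have hps : (TensorProduct.AlgebraTensorModule.lift
      ((LinearMap.toSpanSingleton R0 (N →ₗ[S] N) LinearMap.id)) : TensorProduct S R0 N →ₗ[R0] N) ∘ₗ
      ({ toFun := s0, map_add' := map_add _,
         map_smul' := fun r n => linear_of_comm s0 hlin r n } :
        N →ₗ[R0] TensorProduct S R0 N) = LinearMap.id := by
    ext n
    simp only [LinearMap.comp_apply, LinearMap.coe_mk, AddHom.coe_mk, LinearMap.id_apply]
    rw [hs0, map_sum]
    conv_rhs => rw [← hπ n]
    refine Finset.sum_congr rfl fun i _ => ?_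
    simp
  exact Module.Projective.of_split _ _ hps

theorem inAdd_of_projective (R N : Type) [CommRing R] [AddCommGroup N] [Module R N]
    [Module.Finite R N] [Module.Projective R N] : InAdd R R N := by
  obtain ⟨n, p, hp⟩ := Module.Finite.exists_fin' R N
  obtain ⟨i, hi⟩ := Module.projective_lifting_property p LinearMap.id hp
  exact ⟨n, i, p, hi⟩

theorem split_modifying {R N : Type} [CommRing R] [AddCommGroup N] [Module R N]
    (h : IsModifying R (R × N)) : IsCM R N ∧ IsCM R (Module.End R N) := by
  obtain ⟨_, _, h⟩ := h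
  constructor
  · refine h.of_retract
      { toFun := fun n => (LinearMap.inr R R N) ∘ₗ (LinearMap.toSpanSingleton R N n) ∘ₗ
          LinearMap.fst R R N
        map_add' := fun a b => by ext <;> simp
        map_smul' := fun a b => by ext <;> simp }
      { toFun := fun u => (u (1, 0)).2
        map_add' := fun a b => by simp
        map_smul' := fun a b => by simp } ?_
    ext n
    simp
  · refine h.of_retract
      { toFun := fun u => (LinearMap.inr R R N) ∘ₗ u ∘ₗ LinearMap.snd R R N
        map_add' := fun a b => by ext <;> simp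
        map_smul' := fun a b => by ext <;> simp }
      { toFun := fun u => LinearMap.snd R R N ∘ₗ u ∘ₗ LinearMap.inr R R N
        map_add' := fun a b => by ext; simp
        map_smul' := fun a b => by ext; simp } ?_
    ext u n
    simp

theorem mm (hdim : ∀ m : Ideal R0, m.IsMaximal → m.height = 3) (h1 : CMProjStatement)
    (h2 : RCMStatement) (h3 : RigidStatement) (h4 : CoreStatement) : RMMStatement := by
  have hR : IsCM R0 R0 := h2 hdim
  refine ⟨⟨inferInstance, inferInstance, ?_⟩, ?_⟩
  · exact hR.of_equiv (LinearMap.ringLmapEquivSelf R0 R0 R0).symm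
  · intro N _ _ hfin _ hmod
    obtain ⟨hN, hE⟩ := split_modifying hmod
    letI : Module S N := Module.compHom N (algebraMap S R0)
    haveI : IsScalarTower S R0 N := ⟨fun s r n => by
      change _ = (algebraMap S R0 s) • r • n
      rw [smul_smul, Algebra.smul_def]⟩
    haveI : Module.Projective S N := h1 N hdim hN
    haveI : Module.Finite S N := Module.Finite.trans R0 N
    haveI : Module.Projective S (Module.End R0 N) := h1 _ hdim hE
    haveI : Module.Projective S (LinearMap.ker (aOp 1 (phiN N))) :=
      Module.Projective.of_equiv (endEquiv N)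
    obtain ⟨u, hu⟩ := h4 N (phiN N) (phiN_pow N)
      (h3 N (phiN N) (phiN_pow N) inferInstance)
    haveI : Module.Projective R0 N := projective_of_trace N u hu
    exact inAdd_of_projective R0 N

end Pool.Agent.H66DE
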