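import Pool.Agent.Helper66_DE.Asm3
import Pool.Agent.Helper66_DE.MM
import Pool.Agent.Helper66_DE.Cat
import Pool.Agent.Helper66_DE.DEq
import Pool.Agent.Helper19_DE.CORE
import Pool.Agent.Helper23_DE.QCL
import Pool.Agent.Helper23_DE.EPI
import Pool.Agent.Helper23_DE.CLC
import Pool.Agent.Helper29_DE.CMProj
import Pool.Agent.Helper29_DE.Rigid
import Pool.Agent.Helper29_DE.Per
import Pool.Agent.Helper3_DE.RBasic
import Pool.Agent.Helper3_DE.ChartGl
import Pool.Agent.Helper57_DE.Cmp
import Pool.Agent.Helper57_DE.Neq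
import Pool.Agent.Helper57_DE.Ring
import Pool.Agent.Helper76_DE.Cov
import Pool.Agent.Helper76_DE.Ord
import Pool.Agent.Helper76_DE.Stalk
import Pool.Agent.Helper76_DE.Top
import Pool.Agent.Helper83_DE.FinInj
import Pool.Agent.Helper83_DE.Star
import Pool.Agent.Helper92_DE.LatR
import Pool.Agent.Helper92_DE.Term
import Pool.Agent.Helper95_DE.Blow
import Pool.Agent.Helper95_DE.RGor

/-!
# Final assembly for `MP_9c87df_ag`
-/

open CategoryTheory CategoryTheory.Limits AlgebraicGeometry

noncomputable section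

namespace Pool.Agent.H66DE

attribute [local instance] HasDerivedCategory.standard

theorem isCoh_le (Y : Scheme.{0}) : IsCoh Y ≤ IsQCoh Y := fun _ h => h.1

theorem compact_of_cover {Y : Scheme.{0}} {κ : Type} [Finite κ] (U : κ → Y.Opens)
    (hU : ∀ k, IsAffineOpen (U k)) (hcov : ⨆ k, U k = ⊤) : CompactSpace Y := by
  constructor
  have : (Set.univ : Set Y) = ⋃ k, (U k : Set Y) := by
    rw [← TopologicalSpace.Opens.coe_iSup, hcov]; rfl
  rw [this]
  exact isCompact_iUnion fun k => (hU k).isCompact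

theorem extCoh (hStar : StarStatement) (hCmp : CompareStatement) (hFin : FinInjStatement)
    (Y : Scheme.{0}) [IsLocallyNoetherian Y] [Y.IsSeparated] {κ : Type} [Finite κ]
    (U : κ → Y.Opens) (hU : ∀ k, IsAffineOpen (U k)) (hcov : ⨆ k, U k = ⊤)
    (hgl : ∀ k, FinGl Γ(Y, U k)) [HasExt.{1} (IsCoh Y).FullSubcategory] :
    ∃ N : ℕ, ∀ n, N ≤ n → ∀ X Z : (IsCoh Y).FullSubcategory,
      Subsingleton (Abelian.Ext.{1} X Z n) := by
  have hc : CompactSpace Y := compact_of_cover U hU hcov
  obtain ⟨N, hN⟩ := hFin Y κ U hU hcov hgl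
  have : HasExt.{1} (IsQCoh Y).FullSubcategory := HasExt.standard _
  refine ⟨N, hCmp _ (IsQCoh Y).FullSubcategory (ObjectProperty.ιOfLE (isCoh_le Y)) ?_ N ?_⟩
  · intro E G p hp
    have h1 : Epi ((IsQCoh Y).ι.map p) := by
      have := (IsQCoh Y).preservesEpimorphisms_ι_of_isNormalMonoCategory
      infer_instance
    obtain ⟨G', i, hG', hi⟩ := hStar Y G.obj E.obj G.property E.property p.hom h1
    refine ⟨⟨G', hG'⟩, ObjectProperty.homMk i, ?_⟩
    apply (IsQCoh Y).ι.epi_of_epi_map
    exact hi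
  · intro n hn X Z
    have := hN Z
    exact HasInjectiveDimensionLT.subsingleton Z N n hn X

theorem sR_ne_zero (hx : Prime xR) (i : Option (Fin 3)) : sR i ≠ 0 := by
  cases i with
  | none => exact hx.ne_zero
  | some j =>
    intro h
    have h1 : algebraMap S R0 (MvPolynomial.X j) = algebraMap S R0 0 := by
      rw [map_zero]; exact h
    have hinj : Function.Injective (AdjoinRoot.of fR) :=
      AdjoinRoot.of.injective_of_degree_ne_zero (by
        rw [Polynomial.degree_X_pow_add_C (by norm_num)]; norm_num)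
    have h2 : (MvPolynomial.X j : S) = 0 := hinj h1
    exact MvPolynomial.X_ne_zero j h2

def endRing : Module.End R0 R0 ≃+* R0 :=
  (RingEquiv.moduleEndSelf R0).symm.trans (RingEquiv.toOpposite R0).symm

theorem final_of (hA1 : RBasicStatement) (hA2 : RDimStatement) (hA3 : RGorStatement)
    (hMM : RMMStatement) (hPer : PerStatement) (hBlow : BlowupStatement) (hStalk : StalkStatement)
    (hTop : TopStatement) (hOrd : OrdStatement) (hUFD : ChartUFDStatement)
    (hGl : ChartGlStatement) (hLat : LatChartStatement) (hLatR : LatRStatement)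
    (hTerm : TermStatement) (hDom : DomStatement) (hFin : FinInjStatement)
    (hCov : CoverStatement) (hStar : StarStatement) (hCmp : CompareStatement)
    (hNeq : NonEquivStatement) :
    ∃ (R : Type) (_ : CommRing R) (_ : IsDomain R) (_ : Algebra ℂ R),
      IsIntegrallyClosed R ∧ Algebra.FiniteType ℂ R ∧ ringKrullDim R = 3 ∧ IsGorenstein R ∧
      IsCanonical R ∧
      ∃ (Y : Scheme.{0}) (_ : IsIntegral Y) (_ : IsLocallyNoetherian Y)
        (f : Y ⟶ Spec (CommRingCat.of R)), IsQFactorialTerminalization f ∧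
      ∃ (M : Type) (_ : AddCommGroup M) (_ : Module R M) (_ : IsNoetherianRing (Module.End R M)),
        IsMM R M ∧ ¬ DEq Y (Module.End R M) := by
  obtain ⟨hdom, hufd, hnoeth, hx⟩ := hA1
  have hsR := sR_ne_zero hx
  obtain ⟨Y, hI, hN, hSep, f, hproj, hbir, hfr, hpt, j, hj, hjcov⟩ :=
    points hsR hBlow hStalk hTop
  refine ⟨R0, inferInstance, hdom, inferInstance, inferInstance, ?_, hA2.1, hA3,
    canonical hLat hLatR hDom, Y, hI, hN, f, ?_, R0, inferInstance, inferInstance, ?_, hMM, ?_⟩
  · exact Algebra.FiniteType.trans (S := S) inferInstance inferInstance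
  · exact ⟨hproj, hbir, normal f hfr hpt hUFD, crepant f hfr hpt hLat hLatR hsR,
      terminal f hfr hpt hLat hTerm hUFD, qfactorial f hfr hpt hUFD hOrd⟩
  · exact isNoetherianRing_of_ringEquiv R0 endRing.symm
  · have hnoe : IsNoetherianRing (Module.End R0 R0) :=
      isNoetherianRing_of_ringEquiv R0 endRing.symm
    obtain ⟨κ, hκ, U, hU, hcov, hgl⟩ := hCov Y (Option (Fin 3))
      (fun i => chart (FractionRing R0) i) j hj hjcov
      (fun i => hGl (FractionRing R0) i)
    have e1 : HasExt.{1} (IsCoh Y).FullSubcategory := HasExt.standard _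
    have e2 : HasExt.{1} (FGModuleCat.{0} (Module.End R0 R0)) := HasExt.standard _
    exact hNeq _ _ (extCoh hStar hCmp hFin Y U hU hcov hgl)
      (hPer (Module.End R0 R0) endRing)

theorem final :
    ∃ (R : Type) (_ : CommRing R) (_ : IsDomain R) (_ : Algebra ℂ R),
      IsIntegrallyClosed R ∧ Algebra.FiniteType ℂ R ∧ ringKrullDim R = 3 ∧ IsGorenstein R ∧
      IsCanonical R ∧
      ∃ (Y : Scheme.{0}) (_ : IsIntegral Y) (_ : IsLocallyNoetherian Y)
        (f : Y ⟶ Spec (CommRingCat.of R)), IsQFactorialTerminalization f ∧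
      ∃ (M : Type) (_ : AddCommGroup M) (_ : Module R M) (_ : IsNoetherianRing (Module.End R M)),
        IsMM R M ∧ ¬ DEq Y (Module.End R M) :=
  final_of H3DE.rBasic rdim rGor
    (mm rdim.2 H29DE.cmproj rcm (H29DE.rigid ann) core) H29DE.per blowup stalk top ord
    H3DE.chartUFD' H3DE.chartGl' latChart (latR H3DE.rBasic) term dom
    (H83.finInj qcl epi clq) (cover finGlEquiv) (H83.star qcl epi clq) compare nonEquiv

end Pool.Agent.H66DE
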