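import Pool.Agent.Helper66_DE.Defs

/-!
# Module statements for `MP_9c87df_ag`
-/

open CategoryTheory CategoryTheory.Limits AlgebraicGeometry

noncomputable section

namespace Pool.Agent.H66DE

/-! ## Part A: the ring `R0 = ℂ[x,y₀,y₁,y₂]/(x⁴+y₀³+y₁³+y₂³)`, finite free over `S = ℂ[y₀,y₁,y₂]` -/

abbrev S := MvPolynomial (Fin 3) ℂ

def gS : S := MvPolynomial.X 0 ^ 3 + MvPolynomial.X 1 ^ 3 + MvPolynomial.X 2 ^ 3

abbrev fR : Polynomial S := Polynomial.X ^ 4 + Polynomial.C gS

abbrev R0 := AdjoinRoot fR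

/-- the class of `x` -/
def xR : R0 := AdjoinRoot.root fR

/-- the classes of `y₀, y₁, y₂` -/
def yR (j : Fin 3) : R0 := algebraMap S R0 (MvPolynomial.X j)

/-- A1: elementary facts on `R0`. -/
def RBasicStatement : Prop :=
  IsDomain R0 ∧ UniqueFactorizationMonoid R0 ∧ IsNoetherianRing R0 ∧ Prime xR

/-- A2: dimension. -/
def RDimStatement : Prop :=
  ringKrullDim R0 = 3 ∧ ∀ m : Ideal R0, m.IsMaximal → m.height = 3

/-- A3: `R0` is Gorenstein. -/
def RGorStatement : Prop := IsGorenstein R0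

/-- A4: for a maximal ideal `n` of `S` (generated by `X j - c j`). -/
def nId (c : Fin 3 → ℂ) : Ideal S := Ideal.span (Set.range fun j => MvPolynomial.X j - MvPolynomial.C (c j))

/-- CM over `R0` implies projective over `S`. -/
def CMProjStatement : Prop :=
  ∀ (X : Type) [AddCommGroup X] [Module R0 X] [Module S X] [IsScalarTower S R0 X],
    (∀ m : Ideal R0, m.IsMaximal → m.height = 3) → IsCM R0 X → Module.Projective S X

/-- `R0` is CM over itself. -/
def RCMStatement : Prop :=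
  (∀ m : Ideal R0, m.IsMaximal → m.height = 3) → IsCM R0 R0

section Core

variable {N : Type} [AddCommGroup N] [Module S N]

/-- `k ↦ ζ φ k - k φ` -/
def aOp (ζ : ℂ) (φ : Module.End S N) : Module.End S N →ₗ[S] Module.End S N :=
  (MvPolynomial.C ζ : S) • LinearMap.mulLeft S φ - LinearMap.mulRight S φ

/-- `h ↦ ∑ ζ^(3-i) φ^(3-i) h φ^i` -/
def bOp (ζ : ℂ) (φ : Module.End S N) : Module.End S N →ₗ[S] Module.End S N :=
  ∑ i ∈ Finset.range 4, (MvPolynomial.C ζ : S) ^ (3 - i) •
    (LinearMap.mulLeft S (φ ^ (3 - i)) ∘ₗ LinearMap.mulRight S (φ ^ i))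

end Core

/-- the graded maximal ideal of `S` -/
def n0 : Ideal S := Ideal.span (Set.range fun j : Fin 3 => (MvPolynomial.X j : S))

/-- CONN: connections on projective modules. -/
def ConnStatement : Prop :=
  ∀ (N : Type) [AddCommGroup N] [Module S N] [Module.Projective S N] (D : Derivation ℂ S S),
    ∃ δ : N →+ N, ∀ (s : S) (n : N), δ (s • n) = D s • n + s • δ n

/-- ANN: the cohomology of the complex `a, b` is killed by `(∂ g/∂ y_j)`. -/
def AnnStatement : Prop :=
  ∀ (N : Type) [AddCommGroup N] [Module S N] [Module.Finite S N] [Module.Projective S N]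
    (φ : Module.End S N), φ ^ 4 = - algebraMap S (Module.End S N) gS →
    ∀ ζ : ℂ, ζ ^ 4 = 1 → ∀ h : Module.End S N, bOp ζ φ h = 0 →
      ∀ j : Fin 3, ∃ k : Module.End S N, aOp ζ φ k = (MvPolynomial.X j : S) ^ 2 • h

/-- the Euler derivation `∑ y_j ∂/∂y_j` -/
def eulerD : Derivation ℂ S S :=
  ∑ j : Fin 3, (MvPolynomial.X j : S) • MvPolynomial.pderiv j

/-- FLOW: if the Euler derivation lifts to `(N, φ)`, then modulo `n0^k` the pair `(N, ζφ)` is
isomorphic to `(N, φ)` for all fourth roots of unity `ζ`. -/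
def FlowStatement : Prop :=
  ∀ (N : Type) [AddCommGroup N] [Module S N] [Module.Finite S N] [Module.Projective S N]
    (φ : Module.End S N) (nabla : N →+ N),
    (∀ (s : S) (n : N), nabla (s • n) = eulerD s • n + s • nabla n) →
    (∀ n : N, nabla (φ n) = φ (nabla n) + (MvPolynomial.C (3 / 4 : ℂ) : S) • φ n) →
    ∀ ζ : ℂ, ζ ^ 4 = 1 → ∀ k : ℕ, ∃ θ θ' : Module.End S N,
      (∀ n, (θ * φ - (MvPolynomial.C ζ : S) • (φ * θ)) n ∈ (n0 ^ k) • (⊤ : Submodule S N)) ∧
      (∀ n, (θ * θ' - 1) n ∈ (n0 ^ k) • (⊤ : Submodule S N)) ∧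
      (∀ n, (θ' * θ - 1) n ∈ (n0 ^ k) • (⊤ : Submodule S N))

/-- CORE: rigid implies stably trivial. -/
def CoreStatement : Prop :=
  ∀ (N : Type) [AddCommGroup N] [Module S N] [Module.Finite S N] [Module.Projective S N]
    (φ : Module.End S N), φ ^ 4 = - algebraMap S (Module.End S N) gS →
    (∀ h : Module.End S N, bOp 1 φ h = 0 → ∃ k, aOp 1 φ k = h) → ∃ u, bOp 1 φ u = 1

/-- RIGID: if `N` and the kernel of `a` (the commutant of `φ`) are projective over `S`
then `N` is rigid. -/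
def RigidStatement : Prop :=
  ∀ (N : Type) [AddCommGroup N] [Module S N] [Module.Finite S N] [Module.Projective S N]
    (φ : Module.End S N), φ ^ 4 = - algebraMap S (Module.End S N) gS →
    Module.Projective S (LinearMap.ker (aOp 1 φ)) →
    ∀ h : Module.End S N, bOp 1 φ h = 0 → ∃ k, aOp 1 φ k = h

/-- MMA: `R0` is a maximal modifying module over itself. -/
def RMMStatement : Prop := IsMM R0 R0

/-- PER: the bounded derived category of f.g. modules has unbounded `Ext`. -/
def PerStatement : Prop :=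
  ∀ (Λ : Type) [Ring Λ] [IsNoetherianRing Λ] [HasExt.{1} (FGModuleCat.{0} Λ)], (Λ ≃+* R0) →
    ∃ X X' : FGModuleCat.{0} Λ, ∀ N : ℕ, ∃ n : ℕ, N ≤ n ∧ ¬ Subsingleton (Abelian.Ext.{1} X X' n)

/-! ## Part G: global dimension -/

/-- finite global dimension -/
def FinGl (A : Type) [CommRing A] : Prop :=
  ∃ n : ℕ, ∀ M : ModuleCat.{0} A, HasInjectiveDimensionLT M n

def FinGlEquivStatement : Prop :=
  ∀ (A B : Type) [CommRing A] [CommRing B], (A ≃+* B) → FinGl A → FinGl B

def FinGlPolyStatement : Prop := FinGl (MvPolynomial (Fin 3) ℂ)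

/-- `A` a localization of `B[T]/(P)`, `P` monic, with `P'` invertible in `A`. -/
def FinGlEtaleStatement : Prop :=
  ∀ (B : Type) [CommRing B] (P : Polynomial B), P.Monic → FinGl B →
    ∀ (A : Type) [CommRing A] [Algebra (AdjoinRoot P) A] (T : Submonoid (AdjoinRoot P))
      [IsLocalization T A], IsUnit (algebraMap (AdjoinRoot P) A
        (AdjoinRoot.mk P (Polynomial.derivative P))) → FinGl A

/-! ## Part B: the blow-up -/

/-- The affine chart `R[I/s]` of the blow-up of `I`, as a subring of a field `K ⊇ R`. -/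
def chartRing (R K : Type) [CommRing R] [Field K] [Algebra R K] (I : Ideal R) (s : R)
    (hs : s ∈ I) : Subring K where
  carrier := {z | ∃ (n : ℕ) (r : R), r ∈ I ^ n ∧ z * algebraMap R K s ^ n = algebraMap R K r}
  mul_mem' := by
    rintro z w ⟨n, r, hr, h⟩ ⟨m, r', hr', h'⟩
    refine ⟨n + m, r * r', by rw [pow_add]; exact Ideal.mul_mem_mul hr hr', ?_⟩
    rw [map_mul, ← h, ← h', pow_add]; ring
  one_mem' := ⟨0, 1, by simp, by simp⟩
  add_mem' := by
    rintro z w ⟨n, r, hr, h⟩ ⟨m, r', hr', h'⟩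
    refine ⟨n + m, r * s ^ m + r' * s ^ n, ?_, ?_⟩
    · refine Ideal.add_mem _ ?_ ?_
      · rw [pow_add]; exact Ideal.mul_mem_mul hr (Ideal.pow_mem_pow hs m)
      · rw [add_comm n m, pow_add]; exact Ideal.mul_mem_mul hr' (Ideal.pow_mem_pow hs n)
    · rw [map_add, map_mul, map_mul, ← h, ← h', pow_add, map_pow, map_pow]; ring
  zero_mem' := ⟨0, 0, by simp, by simp⟩
  neg_mem' := by
    rintro z ⟨n, r, hr, h⟩
    exact ⟨n, -r, neg_mem hr, by rw [map_neg, ← h]; ring⟩

/-- `R → R[I/s]` -/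
def toChart (R K : Type) [CommRing R] [Field K] [Algebra R K] (I : Ideal R) (s : R)
    (hs : s ∈ I) : R →+* chartRing R K I s hs :=
  (algebraMap R K).codRestrict _ (fun r => ⟨0, r, by simp, by simp⟩)

/-- BLOW: the blow-up of a noetherian domain along a nonzero ideal. -/
def BlowupStatement : Prop :=
  ∀ (R : Type) [CommRing R] [IsDomain R] [IsNoetherianRing R] (ι : Type) [Finite ι] [Nonempty ι]
    (s : ι → R), (∀ i, s i ≠ 0) →
    ∃ (Y : Scheme.{0}) (_ : IsIntegral Y) (_ : IsLocallyNoetherian Y) (_ : Y.IsSeparated)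
      (f : Y ⟶ Spec (CommRingCat.of R)),
      IsProjectiveMor f ∧ IsBirationalMor f ∧
      ∃ j : ∀ i, Spec (CommRingCat.of (chartRing R (FractionRing R) (Ideal.span (Set.range s)) (s i)
          (Ideal.subset_span ⟨i, rfl⟩))) ⟶ Y,
        (∀ i, IsOpenImmersion (j i)) ∧
        (∀ i, j i ≫ f = Spec.map (CommRingCat.ofHom (toChart R (FractionRing R)
          (Ideal.span (Set.range s)) (s i) (Ideal.subset_span ⟨i, rfl⟩)))) ∧
        ∀ y : Y, ∃ i, y ∈ Set.range (j i)

/-- STALK: an affine chart of an integral scheme. -/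
def StalkStatement : Prop :=
  ∀ (A : Type) [CommRing A] [IsDomain A] (Y : Scheme.{0}) [IsIntegral Y]
    (j : Spec (CommRingCat.of A) ⟶ Y) [IsOpenImmersion j],
    ∃ τ : A →+* Y.functionField, Function.Injective τ ∧
      (∀ z : Y.functionField, ∃ a b : A, b ≠ 0 ∧ z * τ b = τ a) ∧
      (∀ (p : Spec (CommRingCat.of A)) (z : Y.functionField),
        z ∈ stalkSubring Y (j p) ↔ ∃ a s : A, s ∉ p.asIdeal ∧ z * τ s = τ a) ∧
      (∀ (R : Type) [CommRing R] (f : Y ⟶ Spec (CommRingCat.of R)) (φ : R →+* A),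
        j ≫ f = Spec.map (CommRingCat.ofHom φ) → toFF f = τ.comp φ)

/-- TOP: points of an affine chart. -/
def TopStatement : Prop :=
  ∀ (A : Type) [CommRing A] (Y : Scheme.{0}) (j : Spec (CommRingCat.of A) ⟶ Y)
    [IsOpenImmersion j],
    (∀ p : Spec (CommRingCat.of A), Order.coheight (j p) = p.asIdeal.height) ∧
    (∀ p q : Spec (CommRingCat.of A), (j p ⤳ j q) ↔ p.asIdeal ≤ q.asIdeal) ∧
    (∀ (p : Spec (CommRingCat.of A)) (z : Y), z ⤳ j p → z ∈ Set.range j)

/-- ORD: order of vanishing in terms of the local subring. -/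
def OrdStatement : Prop :=
  ∀ (Y : Scheme.{0}) [IsIntegral Y] [IsLocallyNoetherian Y] (z : Y), Order.coheight z = 1 →
    ∀ g : Y.functionField, g ≠ 0 →
      (g ∈ stalkSubring Y z → g⁻¹ ∈ stalkSubring Y z → Scheme.ord g z = 0) ∧
      (g ∈ stalkSubring Y z → g⁻¹ ∉ stalkSubring Y z →
        (∀ a ∈ stalkSubring Y z, a⁻¹ ∈ stalkSubring Y z ∨ a * g⁻¹ ∈ stalkSubring Y z) →
        Scheme.ord g z = 1)

/-- The ideal `(x, y₀, y₁, y₂)`; its generators. -/
def sR : Option (Fin 3) → R0
  | none => xR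
  | some j => yR j

abbrev IR : Ideal R0 := Ideal.span (Set.range sR)

section FieldK

variable (K : Type) [Field K] [Algebra R0 K] [Algebra ℂ K]

/-- the chart rings `A_x, A_{y_j}` of the blow-up of the origin -/
abbrev chart (i : Option (Fin 3)) : Subring K :=
  chartRing R0 K IR (sR i) (Ideal.subset_span ⟨i, rfl⟩)

/-- `η₀ = d(y₀/x) ∧ d(y₁/x) ∧ d(y₂/x)` -/
def eta0 : ⋀[K]^3 (Ω[K⁄ℂ]) :=
  exteriorPower.ιMulti K 3 (fun j => KaehlerDifferential.D ℂ K
    (algebraMap R0 K (yR j) / algebraMap R0 K xR))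

end FieldK

/-- CHX: the `x`-chart is a polynomial ring. -/
def ChartXStatement : Prop :=
  ∀ (K : Type) [Field K] [Algebra R0 K] [IsFractionRing R0 K] [Algebra ℂ K]
    [IsScalarTower ℂ R0 K],
    Function.Injective (MvPolynomial.aeval (R := ℂ)
      (fun j : Fin 3 => algebraMap R0 K (yR j) / algebraMap R0 K xR)) ∧
    ∀ z : K, z ∈ chart K none ↔ z ∈ (MvPolynomial.aeval (R := ℂ)
      (fun j : Fin 3 => algebraMap R0 K (yR j) / algebraMap R0 K xR)).range

/-- CHU: all charts are noetherian factorial domains. -/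
def ChartUFDStatement : Prop :=
  ∀ (K : Type) [Field K] [Algebra R0 K] [IsFractionRing R0 K] [Algebra ℂ K]
    [IsScalarTower ℂ R0 K] (i : Option (Fin 3)),
    IsNoetherianRing (chart K i) ∧ UniqueFactorizationMonoid (chart K i)

/-- CHG: the charts have a finite cover by basic opens whose rings have finite global dimension. -/
def ChartGlStatement : Prop :=
  ∀ (K : Type) [Field K] [Algebra R0 K] [IsFractionRing R0 K] [Algebra ℂ K]
    [IsScalarTower ℂ R0 K] (i : Option (Fin 3)),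
    ∃ H : Finset (chart K i), Ideal.span (H : Set (chart K i)) = ⊤ ∧
      ∀ h ∈ H, FinGl (Localization.Away h)

/-- LATY: on every chart, `η₀` generates the three-forms at every prime. -/
def LatChartStatement : Prop :=
  ∀ (K : Type) [Field K] [Algebra R0 K] [IsFractionRing R0 K] [Algebra ℂ K]
    [IsScalarTower ℂ R0 K] (i : Option (Fin 3)) (p : Ideal (chart K i)) [p.IsPrime],
    formLattice K (locSubring (chart K i) K p) =
      Submodule.span (locSubring (chart K i) K p) {eta0 K}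

/-- LATR: `η₀` generates the three-forms at every height one prime of `R0`. -/
def LatRStatement : Prop :=
  ∀ (K : Type) [Field K] [IsDomain R0] [Algebra R0 K] [FaithfulSMul R0 K] [IsFractionRing R0 K]
    [Algebra ℂ K] [IsScalarTower ℂ R0 K] (p : Ideal R0) [p.IsPrime], p.height = 1 →
    formLattice K (locSubring R0 K p) = Submodule.span (locSubring R0 K p) {eta0 K}

/-- TERM: `η₀` vanishes along every valuation centred in codimension at least two on a chart. -/
def TermStatement : Prop :=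
  ∀ (K : Type) [Field K] [Algebra R0 K] [IsFractionRing R0 K] [Algebra ℂ K]
    [IsScalarTower ℂ R0 K] (i : Option (Fin 3)) (p : Ideal (chart K i)) [p.IsPrime],
    2 ≤ p.height → ∀ V : ValuationSubring K, IsDiscreteValuationRing V →
      (∀ c : ℂ, algebraMap ℂ K c ∈ V) →
      locSubring (chart K i) K p ≤ V.toSubring →
      (∀ a ∈ locSubring (chart K i) K p, V.valuation a = 1 →
        a⁻¹ ∈ locSubring (chart K i) K p) →
      ∃ π : K, V.valuation π < 1 ∧ ∃ w ∈ formLattice K V.toSubring, eta0 K = π • w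

/-- DOM: a valuation ring containing `R0` contains a chart ring. -/
def DomStatement : Prop :=
  ∀ (K : Type) [Field K] [Algebra R0 K] [IsFractionRing R0 K] (V : ValuationSubring K),
    (∀ r : R0, algebraMap R0 K r ∈ V) → ∃ i : Option (Fin 3), chart K i ≤ V.toSubring

/-! ## Part C: coherent sheaves -/

/-- Localization of sections: `Γ(M, U) → Γ(M, D(f))` is the localization at `f`. -/
def LocAt {Y : Scheme.{0}} (M : Y.Modules) (U : Y.Opens) (f : Γ(Y, U)) : Prop :=
  (∀ t : Γ(M, U), M.presheaf.map (homOfLE (Y.basicOpen_le f)).op t = 0 →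
    ∃ n : ℕ, f ^ n • t = 0) ∧
  (∀ s : Γ(M, Y.basicOpen f), ∃ (n : ℕ) (t : Γ(M, U)),
    M.presheaf.map (homOfLE (Y.basicOpen_le f)).op t =
      (Y.presheaf.map (homOfLE (Y.basicOpen_le f)).op f) ^ n • s)

/-- QCL: quasi-coherence in terms of sections on affine opens. -/
def QCLocStatement : Prop :=
  (∀ (Y : Scheme.{0}) (M : Y.Modules), IsQCoh Y M → ∀ U : Y.Opens, IsAffineOpen U →
    ∀ f : Γ(Y, U), LocAt M U f) ∧
  (∀ (Y : Scheme.{0}) (M : Y.Modules) (ι : Type) (U : ι → Y.Opens), (∀ i, IsAffineOpen (U i)) →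
    (⨆ i, U i = ⊤) → (∀ i, ∀ f : Γ(Y, U i), LocAt M (U i) f) → IsQCoh Y M)

/-- CLQ: quasi-coherent modules form an abelian subcategory. -/
def QCohClosedStatement : Prop :=
  ∀ Y : Scheme.{0}, (IsQCoh Y).ContainsZero ∧ (IsQCoh Y).IsClosedUnderKernels ∧
    (IsQCoh Y).IsClosedUnderCokernels ∧ (IsQCoh Y).IsClosedUnderFiniteProducts

/-- CLC: coherent modules form an abelian subcategory. -/
def CohClosedStatement : Prop :=
  ∀ (Y : Scheme.{0}) [IsLocallyNoetherian Y], (IsCoh Y).ContainsZero ∧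
    (IsCoh Y).IsClosedUnderKernels ∧
    (IsCoh Y).IsClosedUnderCokernels ∧ (IsCoh Y).IsClosedUnderFiniteProducts

/-- EPI: epimorphisms of quasi-coherent modules are surjective on affine opens, and conversely. -/
def EpiStatement : Prop :=
  ∀ (Y : Scheme.{0}) (M N : Y.Modules), IsQCoh Y M → IsQCoh Y N → ∀ p : M ⟶ N,
    (Epi p → ∀ U : Y.Opens, IsAffineOpen U → Function.Surjective (p.app U)) ∧
    (∀ (ι : Type) (U : ι → Y.Opens), (∀ i, IsAffineOpen (U i)) → (⨆ i, U i = ⊤) →
      (∀ i, Function.Surjective (p.app (U i))) → Epi p)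

/-- PUSH: push-forward along the inclusion of an affine open subset of a separated scheme
preserves quasi-coherence and epimorphisms of quasi-coherent modules. -/
def PushStatement : Prop :=
  ∀ (Y : Scheme.{0}) [Y.IsSeparated] (U : Y.Opens) (hU : IsAffineOpen U),
    (∀ G : (Spec Γ(Y, U)).Modules, IsQCoh _ G →
      IsQCoh Y ((Scheme.Modules.pushforward hU.fromSpec).obj G)) ∧
    (∀ (G H : (Spec Γ(Y, U)).Modules) (p : G ⟶ H), IsQCoh _ G → IsQCoh _ H → Epi p →
      Epi ((Scheme.Modules.pushforward hU.fromSpec).map p))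

/-- FINJ: a separated scheme with a finite affine cover by rings of finite global dimension has
finite global dimension. -/
def FinInjStatement : Prop :=
  ∀ (Y : Scheme.{0}) [Y.IsSeparated] [(IsQCoh Y).ContainsZero] [(IsQCoh Y).IsClosedUnderKernels]
    [(IsQCoh Y).IsClosedUnderCokernels] [(IsQCoh Y).IsClosedUnderFiniteProducts]
    (ι : Type) [Finite ι] (U : ι → Y.Opens), (∀ i, IsAffineOpen (U i)) →
    (⨆ i, U i = ⊤) → (∀ i, FinGl Γ(Y, U i)) →
    ∃ n : ℕ, ∀ F : (IsQCoh Y).FullSubcategory, HasInjectiveDimensionLT F n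

/-- COV: refinement of the cover. -/
def CoverStatement : Prop :=
  ∀ (Y : Scheme.{0}) (ι : Type) [Finite ι] (A : ι → Type) [∀ i, CommRing (A i)]
    (j : ∀ i, Spec (CommRingCat.of (A i)) ⟶ Y), (∀ i, IsOpenImmersion (j i)) →
    (∀ y : Y, ∃ i, y ∈ Set.range (j i)) → (∀ i, ∃ H : Finset (A i),
      Ideal.span (H : Set (A i)) = ⊤ ∧ ∀ h ∈ H, FinGl (Localization.Away h)) →
    ∃ (κ : Type) (_ : Finite κ) (U : κ → Y.Opens), (∀ k, IsAffineOpen (U k)) ∧
      (⨆ k, U k = ⊤) ∧ ∀ k, FinGl Γ(Y, U k)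

/-- STAR: a quasi-coherent module surjecting onto a coherent one contains a coherent submodule
which still surjects. -/
def StarStatement : Prop :=
  ∀ (Y : Scheme.{0}) [Y.IsSeparated] [IsLocallyNoetherian Y] [CompactSpace Y] (G E : Y.Modules),
    IsQCoh Y G → IsCoh Y E → ∀ p : G ⟶ E, Epi p →
    ∃ (G' : Y.Modules) (i : G' ⟶ G), IsCoh Y G' ∧ Epi (i ≫ p)

/-- CMP: comparison of `Ext` for a full abelian subcategory satisfying the condition of STAR. -/
def CompareStatement : Prop :=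
  ∀ (C D : Type 1) [Category.{0} C] [Category.{0} D] [Abelian C] [Abelian D] [HasExt.{1} C]
    [HasExt.{1} D] (F : C ⥤ D)
    [F.Full] [F.Faithful] [F.Additive] [PreservesFiniteLimits F] [PreservesFiniteColimits F],
    (∀ (E : C) (G : D) (p : G ⟶ F.obj E), Epi p →
      ∃ (E' : C) (i : F.obj E' ⟶ G), Epi (i ≫ p)) →
    ∀ N : ℕ, (∀ n, N ≤ n → ∀ X Y : D, Subsingleton (Abelian.Ext.{1} X Y n)) →
      ∀ n, N ≤ n → ∀ X Y : C, Subsingleton (Abelian.Ext.{1} X Y n)

attribute [local instance] HasDerivedCategory.standard in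
/-- NEQ: bounded `Ext` on one side and unbounded `Ext` on the other: no triangulated equivalence. -/
def NonEquivStatement : Prop :=
  ∀ (C D : Type 1) [Category.{0} C] [Category.{0} D] [Abelian C] [Abelian D] [HasExt.{1} C]
    [HasExt.{1} D],
    (∃ N : ℕ, ∀ n, N ≤ n → ∀ X Y : C, Subsingleton (Abelian.Ext.{1} X Y n)) →
    (∃ X Y : D, ∀ N : ℕ, ∃ n : ℕ, N ≤ n ∧ ¬ Subsingleton (Abelian.Ext.{1} X Y n)) →
    ¬ TriEquiv (DerivedCategory.Bounded C) (DerivedCategory.Bounded D)

end Pool.Agent.H66DE
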